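import Pool.Agent.H59Z.NA.Tpos

set_option autoImplicit false

/-!
# Chains of lines in a geometry with angles; products of two elliptic elements
-/

namespace Pool.Agent.H233Z.HM

open Pool.Agent.H59Z.NA Tpos

variable {R W J : Type} [Group R] [MulAction R W] [MulAction R J] {L : ℕ} (A : AG R W J L)

/-- A line which separates a point from another line is nearer. -/
theorem eta_lt (l m : J) (hne : l ≠ m) (y : W) (hy : y ∈ A.Y m) (z : W)
    (h : (1200 : ℝ) * L < A.ang l y z) : A.Z.eta (A.Y l) z < A.Z.eta (A.Y m) z := by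
  obtain ⟨a, ha, ea⟩ := eta_mem A.Z _ z (A.Y_ne m)
  have h1 := A.sep l m hne y hy a ha
  have h2 := A.ang_tri l y a z
  have h3 := A.ang_comm l z a
  have h4 := p1 A l z a (by linarith)
  omega

theorem behr (l m : J) (hne : l ≠ m) (y : W) (hy : y ∈ A.Y m) (y' : W) (hy' : y' ∈ A.Y l)
    (z : W) : A.ang l y z ≤ 1200 * L ∨ A.ang m y' z ≤ 1200 * L := by
  by_contra hc
  push Not at hc
  have h1 := eta_lt A l m hne y hy z hc.1
  have h2 := eta_lt A m l hne.symm y' hy' z hc.2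
  omega

theorem chain (ln : ℕ → J) (h1 : ∀ j, ln j ≠ ln (j + 1))
    (h2 : ∀ j, ∀ y ∈ A.Y (ln j), ∀ y' ∈ A.Y (ln (j + 2)),
      (2400 : ℝ) * L < A.ang (ln (j + 1)) y y') (j d : ℕ) : ln j ≠ ln (j + 2 + d) := by
  have hL : (1 : ℝ) ≤ L := by exact_mod_cast A.hL
  have c1 : ∀ d j, ∀ y ∈ A.Y (ln (j + 1 + d)), ∀ y' ∈ A.Y (ln (j + 1)),
      A.ang (ln j) y' y ≤ 1200 * L := by
    intro d
    induction d with
    | zero =>
      intro j y hy y' hy'
      have := A.sep _ _ (h1 j) y' hy' y hy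
      linarith
    | succ d ih =>
      intro j y hy y' hy'
      obtain ⟨y0, hy0⟩ := A.Y_ne (ln j)
      obtain ⟨y2, hy2⟩ := A.Y_ne (ln (j + 2))
      have e1 := ih (j + 1) y (by rwa [show j + 1 + 1 + d = j + 1 + (d + 1) by ring]) y2 hy2
      have e2 := h2 j y0 hy0 y2 hy2
      have e3 := A.ang_tri (ln (j + 1)) y0 y y2
      have e4 := A.ang_comm (ln (j + 1)) y y2
      refine (behr A _ _ (h1 j) y' hy' y0 hy0 y).resolve_right ?_
      linarith
  have c2 : ∀ d j, ∀ y ∈ A.Y (ln (j + 1 + d)), d ≤ A.Z.eta (A.Y (ln j)) y := by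
    intro d
    induction d with
    | zero => intro j y _; exact Nat.zero_le _
    | succ d ih =>
      intro j y hy
      have hy' : y ∈ A.Y (ln (j + 1 + 1 + d)) := by
        rwa [show j + 1 + 1 + d = j + 1 + (d + 1) by ring]
      obtain ⟨y0, hy0⟩ := A.Y_ne (ln j)
      obtain ⟨y2, hy2⟩ := A.Y_ne (ln (j + 2))
      have e1 := c1 d (j + 1) y hy' y2 hy2
      have e2 := h2 j y0 hy0 y2 hy2
      have e3 := A.ang_tri (ln (j + 1)) y0 y y2
      have e4 := A.ang_comm (ln (j + 1)) y y2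
      have e5 := eta_lt A _ _ (h1 j).symm y0 hy0 y (by linarith)
      have e6 := ih (j + 1) y hy'
      omega
  intro he
  obtain ⟨y, hy⟩ := A.Y_ne (ln j)
  have e1 := c2 (d + 1) j y (by rw [show j + 1 + (d + 1) = j + 2 + d by ring, ← he]; exact hy)
  have e2 := eta_le A.Z _ y y hy
  rw [A.Z.self] at e2
  omega

theorem mem_smul (g : R) (l : J) (y : W) (hy : y ∈ A.Y (g • l)) : g⁻¹ • y ∈ A.Y l := by
  rw [← A.Y_smul g, smul_inv_smul]; exact hy

theorem ang_inv (g : R) (l : J) (y y' : W) :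
    A.ang (g • l) y y' = A.ang l (g⁻¹ • y) (g⁻¹ • y') := by
  rw [← A.ang_smul g l, smul_inv_smul, smul_inv_smul]

theorem periodic (h : R) (l₀ l₁ : J) (n1 : l₀ ≠ l₁) (n2 : l₁ ≠ h • l₀)
    (a1 : ∀ y ∈ A.Y l₀, ∀ y' ∈ A.Y (h • l₀), (2400 : ℝ) * L < A.ang l₁ y y')
    (a2 : ∀ y ∈ A.Y l₁, ∀ y' ∈ A.Y (h • l₁), (2400 : ℝ) * L < A.ang (h • l₀) y y')
    (n : ℕ) (hn : 0 < n) : h ^ n ≠ 1 := by
  intro hh
  let ln : ℕ → J := fun j => h ^ (j / 2) • (if j % 2 = 0 then l₀ else l₁)
  have e0 : ∀ t, ln (2 * t) = h ^ t • l₀ := by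
    intro t
    simp only [ln]
    rw [if_pos (by omega), show 2 * t / 2 = t by omega]
  have e1 : ∀ t, ln (2 * t + 1) = h ^ t • l₁ := by
    intro t
    simp only [ln]
    rw [if_neg (by omega), show (2 * t + 1) / 2 = t by omega]
  have e2 : ∀ t, ln (2 * t + 2) = h ^ t • h • l₀ := by
    intro t
    rw [show 2 * t + 2 = 2 * (t + 1) by ring, e0, pow_succ, mul_smul]
  have e3 : ∀ t, ln (2 * t + 1 + 2) = h ^ t • h • l₁ := by
    intro t
    rw [show 2 * t + 1 + 2 = 2 * (t + 1) + 1 by ring, e1, pow_succ, mul_smul]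
  refine chain A ln ?_ ?_ 0 (2 * n - 2) ?_
  · intro j
    obtain ⟨t, rfl | rfl⟩ := Nat.even_or_odd' j
    · rw [e0, e1]; exact fun h => n1 (smul_left_cancel _ h)
    · rw [e1, e2]; exact fun h => n2 (smul_left_cancel _ h)
  · intro j y hy y' hy'
    obtain ⟨t, rfl | rfl⟩ := Nat.even_or_odd' j
    · rw [e0] at hy
      rw [e2] at hy'
      rw [e1, ang_inv]
      exact a1 _ (mem_smul A _ _ _ hy) _ (mem_smul A _ _ _ hy')
    · rw [e1] at hy
      rw [e3] at hy'
      rw [e2, ang_inv]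
      exact a2 _ (mem_smul A _ _ _ hy) _ (mem_smul A _ _ _ hy')
  · rw [show 0 + 2 + (2 * n - 2) = 2 * n by omega, e0, hh, show (0 : ℕ) = 2 * 0 by rfl, e0,
      pow_zero]

/-- A line does not separate a good point of an elliptic element from the image of the line. -/
theorem nosep (u : R) (n : ℕ) (hn : 0 < n) (hu : u ^ n = 1) (p : W) (B : ℝ)
    (hp : ∀ (j : ℕ) (m : J), A.ang m p (u ^ j • p) ≤ B) (l : J) (hl : u • l ≠ l) (y : W)
    (hy : y ∈ A.Y l) : A.ang l p (u • y) ≤ B + 1200 * L := by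
  by_contra hc
  push Not at hc
  have key : ∀ j : ℕ, A.Z.eta (A.Y l) p + j ≤ A.Z.eta (A.Y (u ^ j • l)) p := by
    intro j
    induction j with
    | zero => simp
    | succ j ih =>
      have e1 := A.ang_smul (u ^ j) l p (u • y)
      have e2 := hp j (u ^ j • l)
      have e3 := A.ang_tri (u ^ j • l) (u ^ j • p) p (u ^ j • u • y)
      have e4 := A.ang_comm (u ^ j • l) (u ^ j • p) p
      have e5 := A.ang_comm (u ^ j • l) p (u ^ j • u • y)
      have e6 := eta_lt A (u ^ j • l) (u ^ (j + 1) • l)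
        (by rw [pow_succ, mul_smul]; exact fun h => hl (smul_left_cancel _ h).symm)
        (u ^ j • u • y) (by rw [← mul_smul, ← pow_succ, A.Y_smul]; exact hy) p (by linarith)
      omega
  have := key n
  rw [hu, one_smul] at this
  omega

/-- Good points of two elliptic elements with elliptic product make small angles. -/
theorem tri (u v : R) (n : ℕ) (hn : 0 < n) (hu : u ^ n = 1) (hv : v ^ n = 1)
    (huv : (u * v) ^ n = 1) (p q : W) (B : ℝ)
    (hp : ∀ g ∈ Subgroup.zpowers u, ∀ m : J, A.ang m p (g • p) ≤ B)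
    (hq : ∀ g ∈ Subgroup.zpowers v, ∀ m : J, A.ang m q (g • q) ≤ B)
    (hul : ∀ l : J, u • l ≠ l) (hvl : ∀ l : J, v • l ≠ l) (l : J) :
    A.ang l p q ≤ 2 * B + 4800 * L := by
  by_contra hc
  push Not at hc
  have inv_ne : ∀ g : R, (∀ l : J, g • l ≠ l) → g⁻¹ • l ≠ l := by
    intro g hg h
    apply hg l
    conv_lhs => rw [← h]
    rw [smul_inv_smul]
  have s1 := nosep A u n hn hu p B
    (fun j m => hp _ (Subgroup.pow_mem _ (Subgroup.mem_zpowers u) j) m) l (hul l)
  have s2 := nosep A u⁻¹ n hn (by rw [inv_pow, hu, inv_one]) p B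
    (fun j m => hp _ (Subgroup.pow_mem _ (Subgroup.inv_mem _ (Subgroup.mem_zpowers u)) j) m) l
    (inv_ne u hul)
  have s3 := nosep A v n hn hv q B
    (fun j m => hq _ (Subgroup.pow_mem _ (Subgroup.mem_zpowers v) j) m) l (hvl l)
  have s4 := nosep A v⁻¹ n hn (by rw [inv_pow, hv, inv_one]) q B
    (fun j m => hq _ (Subgroup.pow_mem _ (Subgroup.inv_mem _ (Subgroup.mem_zpowers v)) j) m) l
    (inv_ne v hvl)
  have fin : ∀ a b : W, A.ang l p a ≤ B + 1200 * L → A.ang l q b ≤ B + 1200 * L →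
      (2400 : ℝ) * L < A.ang l a b := by
    intro a b ha hb
    have e1 := A.ang_tri l p a q
    have e2 := A.ang_tri l a b q
    have e3 := A.ang_comm l b q
    linarith
  refine periodic A (u * v) l (u • l) (hul l).symm ?_ ?_ ?_ n hn huv
  · rw [mul_smul]
    exact fun h => hvl l (smul_left_cancel _ h).symm
  · intro y hy y' hy'
    rw [mul_smul] at hy'
    have h1 := mem_smul A _ _ _ (mem_smul A _ _ _ hy')
    rw [ang_inv]
    refine fin _ _ (s2 y hy) ?_
    have := s3 _ h1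
    rwa [smul_inv_smul] at this
  · intro y hy y' hy'
    have h1 := mem_smul A _ _ _ (mem_smul A _ _ _ hy')
    have h2 := mem_smul A _ _ _ hy
    rw [ang_inv, A.ang_comm]
    refine fin _ _ ?_ ?_
    · have := s1 _ h1
      rwa [smul_inv_smul] at this
    · have := s4 _ h2
      rwa [mul_inv_rev, mul_smul]

/-- The product of two large rotations about different lines has infinite order. -/
theorem rotprod (u v : R) (l l' : J) (hne : l ≠ l') (hu : u • l = l) (hv : v • l' = l')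
    (au : ∀ p, (3000 : ℝ) * L < A.ang l p (u • p)) (av : ∀ p, (3000 : ℝ) * L < A.ang l' p (v • p))
    (n : ℕ) (hn : 0 < n) : (u * v) ^ n ≠ 1 := by
  have e : (u * v) • l' = u • l' := by rw [mul_smul, hv]
  refine periodic A (u * v) l' l hne.symm ?_ ?_ ?_ n hn
  · rw [e]
    intro h
    apply hne
    apply smul_left_cancel u
    rw [hu, ← h]
  · intro y hy y' hy'
    rw [e] at hy'
    have h1 := mem_smul A _ _ _ hy'
    have h2 := au (u⁻¹ • y')
    rw [smul_inv_smul] at h2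
    have h3 := A.sep l l' hne _ h1 y hy
    have h4 := A.ang_tri l (u⁻¹ • y') y y'
    linarith
  · intro y hy y' hy'
    have h1 := mem_smul A _ _ _ hy'
    have h0 : u⁻¹ • y ∈ A.Y l := mem_smul A _ _ _ (by rw [hu]; exact hy)
    rw [ang_inv]
    have h2 := av ((u * v)⁻¹ • y)
    rw [show v • (u * v)⁻¹ • y = u⁻¹ • y by rw [mul_inv_rev, mul_smul, smul_inv_smul]] at h2
    have h3 := A.sep l' l hne.symm _ h1 _ h0
    have h4 := A.ang_tri l' ((u * v)⁻¹ • y) ((u * v)⁻¹ • y') (u⁻¹ • y)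
    linarith

end Pool.Agent.H233Z.HM
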