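import Pool.Agent.H233Z.HM.Limit
import Pool.Agent.H59Z.NA.TappZ

set_option autoImplicit false

/-!
# Properties of the limit group and the amalgam with the 3-adic integers
-/

namespace Pool.Agent.H233Z.HM

open Pool.Agent.H59Z.NA

section monster

variable {Q : Type} [Group Q] {a : Q} {m : ℕ}

theorem Monster.fin (h : Monster Q a m) (hm : 0 < m) (u : Q) (hu : u ≠ 1) :
    {x : Q | Commute x u}.Finite := by
  classical
  by_contra hinf
  obtain ⟨S, hS, hcard⟩ := Set.Infinite.exists_subset_card_eq hinf (m * m + 1)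
  obtain ⟨g, hg⟩ := h.cyc u hu S (fun x hx => hS hx)
  have hfin : IsOfFinOrder g := isOfFinOrder_iff_pow_eq_one.2 ⟨m * m, Nat.mul_pos hm hm, h.exp g⟩
  have h1 : (S : Set Q).ncard ≤ (Subgroup.zpowers g : Set Q).ncard :=
    Set.ncard_le_ncard (fun x hx => hg x hx) (finite_zpowers.2 hfin)
  rw [Set.ncard_coe_finset, hcard] at h1
  have h2 : (Subgroup.zpowers g : Set Q).ncard = orderOf g := by
    rw [← Nat.card_zpowers]; rfl
  have h3 := orderOf_le_of_pow_eq_one (Nat.mul_pos hm hm) (h.exp g)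
  omega

theorem Monster.center (h : Monster Q a m) (z : Q) (hz : ∀ x, Commute x z) : z = 1 := by
  classical
  by_contra hne
  obtain ⟨u, v, huv⟩ := h.nc
  obtain ⟨g, hg⟩ := h.cyc z hne {u, v} (fun x _ => hz x)
  obtain ⟨s, rfl⟩ := Subgroup.mem_zpowers_iff.1 (hg u (by simp))
  obtain ⟨t, rfl⟩ := Subgroup.mem_zpowers_iff.1 (hg v (by simp))
  exact huv ((Commute.refl g).zpow_zpow s t)

theorem Monster.infinite {k : ℕ} (h : Monster Q a (3 ^ k)) : Infinite Q := by
  by_contra hinf
  have : Finite Q := not_infinite_iff_finite.1 hinf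
  have : Fact (Nat.Prime 3) := ⟨Nat.prime_three⟩
  have hp : IsPGroup 3 Q := fun g => ⟨k + k, by rw [pow_add]; exact h.exp g⟩
  have : Nontrivial Q := ⟨⟨_, _, h.ne⟩⟩
  have := hp.center_nontrivial
  obtain ⟨⟨z, hz⟩, hz1⟩ := exists_ne (1 : Subgroup.center Q)
  exact hz1 (Subtype.ext (h.center z fun x => Subgroup.mem_center_iff.1 hz x))

/-- No subgroup has a non-discrete Hausdorff group topology. -/
theorem Monster.discrete (h : Monster Q a m) (hm : 0 < m) {H : Type} [Group H] (j : H →* Q)
    (hj : Function.Injective j) [TopologicalSpace H] [IsTopologicalGroup H] [T2Space H] :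
    DiscreteTopology H := by
  have key : ∀ U : Set H, IsOpen U → (1 : H) ∈ U → U.Finite → DiscreteTopology H := by
    intro U hU h1 hfin
    apply discreteTopology_of_isOpen_singleton_one
    have h2 : IsClosed (U \ {1}) := (hfin.subset Set.sdiff_subset).isClosed
    have h3 : ({1} : Set H) = U ∩ (U \ {1})ᶜ := by
      ext x
      simp only [Set.mem_singleton_iff, Set.mem_inter_iff, Set.mem_compl_iff, Set.mem_sdiff]
      constructor
      · rintro rfl; exact ⟨h1, fun h => h.2 rfl⟩
      · rintro ⟨hx, hx2⟩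
        by_contra hne
        exact hx2 ⟨hx, hne⟩
    rw [h3]
    exact hU.inter h2.isOpen_compl
  have fin : ∀ u : Q, u ≠ 1 → {x : H | Commute (j x) u}.Finite := fun u hu =>
    (h.fin hm u hu).preimage hj.injOn
  by_cases hc : ∀ u v : H, Commute (j u) (j v)
  · by_cases h1 : ∀ u : H, u = 1
    · refine key Set.univ isOpen_univ trivial ((Set.finite_singleton 1).subset fun x _ => h1 x)
    · push Not at h1
      obtain ⟨u, hu⟩ := h1
      exact key Set.univ isOpen_univ trivial
        ((fin (j u) fun h0 => hu (hj (h0.trans (map_one j).symm))).subset fun x _ => hc x u)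
  · push Not at hc
    obtain ⟨u, v, huv⟩ := hc
    have h1 : a ∈ j.range := by
      refine (Subgroup.closure_le _).2 ?_ (h.hit _ _ huv)
      rintro _ (rfl | rfl)
      · exact ⟨u, rfl⟩
      · exact ⟨v, rfl⟩
    obtain ⟨b, rfl⟩ := h1
    have ha1 : j b ≠ 1 := fun h0 => h.ne (by rw [h0, one_pow])
    refine key {x | (b * (x * b * x⁻¹)) ^ m = 1}ᶜ ?_ ?_ ((fin _ ha1).subset fun x hx => ?_)
    · exact (isClosed_eq (by fun_prop) continuous_const).isOpen_compl
    · intro h0
      apply h.ne
      have h2 : (b * (1 * b * 1⁻¹)) ^ m = 1 := h0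
      rw [one_mul, inv_one, mul_one, ← pow_two, ← pow_mul] at h2
      rw [← map_pow, h2, map_one]
    · refine (h.prod (j x)).resolve_right fun h0 => hx ?_
      apply hj
      simpa only [map_pow, map_mul, map_inv, map_one] using h0

end monster

open TappZ in
theorem exists_amalgam : ∃ (k : ℕ) (G Q : Type) (_ : Group G) (_ : Group Q)
    (_ : TopologicalSpace G) (ι : Multiplicative ℤ_[3] →* G) (ψ : G →* Q) (a : Q),
    IsTopologicalGroup G ∧ T2Space G ∧ Topology.IsOpenEmbedding ι ∧
    Subgroup.center G = ι.range ∧ Function.Surjective ψ ∧ ψ.ker = ι.range ∧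
    (∀ (g : G) (m : ℕ), 0 < m → g ^ m = 1 → g = 1) ∧ Monster Q a (3 ^ k) := by
  obtain ⟨k, G, Q, _, _, ρ, c, a, ⟨hsurj, hker, hc, hc1, htf⟩, hM⟩ := exists_monster
  let tG : TopologicalSpace G := ⊥
  have : DiscreteTopology G := ⟨rfl⟩
  have hN : (N c).Normal := N_normal c hc
  have hcz : ∀ k : ℤ, c ^ k = 1 → k = 0 := by
    intro k hk
    by_contra hk0
    exact hc1 (htf c k.natAbs (Int.natAbs_pos.mpr hk0) (pow_natAbs_eq_one.2 hk))
  let G1 : Type := (G × M) ⧸ N c
  let ι : M →* G1 := (QuotientGroup.mk' (N c)).comp (MonoidHom.inr G M)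
  have ιapp : ∀ z, ι z = QuotientGroup.mk ((1 : G), z) := fun z => rfl
  have ιinj : Function.Injective ι := by
    rw [injective_iff_map_eq_one]
    intro z hz
    rw [ιapp, QuotientGroup.eq_one_iff, mem_N] at hz
    obtain ⟨k, hk1, hk2⟩ := hz
    have := hcz k hk1
    subst this
    apply Multiplicative.toAdd.injective
    simpa using hk2
  have ιcont : Continuous ι :=
    QuotientGroup.continuous_mk.comp (continuous_const.prodMk continuous_id)
  have ιopen : IsOpenMap ι := by
    have h2 : IsOpenMap (fun z : M => ((1 : G), z)) := by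
      intro U hU
      have : (fun z : M => ((1 : G), z)) '' U = ({1} : Set G) ×ˢ U := by
        ext ⟨a, b⟩
        constructor
        · rintro ⟨z, hz, h⟩
          obtain ⟨rfl, rfl⟩ := Prod.mk.inj h
          exact ⟨rfl, hz⟩
        · rintro ⟨h1, h2⟩
          exact ⟨b, h2, Prod.ext (Eq.symm h1) rfl⟩
      rw [this]
      exact (isOpen_discrete _).prod hU
    exact QuotientGroup.isOpenMap_coe.comp h2
  have ιemb : Topology.IsOpenEmbedding ι :=
    Topology.IsOpenEmbedding.of_continuous_injective_isOpenMap ιcont ιinj ιopen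
  have ιcomm : ∀ z g, Commute (ι z) g := by
    intro z g
    obtain ⟨x, rfl⟩ := QuotientGroup.mk_surjective g
    rw [ιapp]
    show _ * _ = _ * _
    rw [← QuotientGroup.mk_mul, ← QuotientGroup.mk_mul]
    congr 1
    exact Prod.ext (by simp) (mul_comm _ _)
  let ψ : G1 →* Q := QuotientGroup.lift (N c) (ρ.comp (MonoidHom.fst G M)) (by
    intro x hx
    rw [mem_N] at hx
    obtain ⟨k, hk, -⟩ := hx
    show ρ x.1 = 1
    rw [hker]
    exact ⟨k, hk⟩)
  have ψapp : ∀ x : G × M, ψ (QuotientGroup.mk x) = ρ x.1 := fun x => rfl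
  have ψsurj : Function.Surjective ψ := by
    intro b
    obtain ⟨a, rfl⟩ := hsurj b
    exact ⟨QuotientGroup.mk (a, 1), rfl⟩
  have ψker : ∀ g : G1, ψ g = 1 ↔ g ∈ ι.range := by
    intro g
    constructor
    · intro hg
      obtain ⟨x, rfl⟩ := QuotientGroup.mk_surjective g
      rw [ψapp, hker] at hg
      obtain ⟨k, hk⟩ := hg
      refine ⟨x.2 * Multiplicative.ofAdd (k : ℤ_[3]), ?_⟩
      rw [ιapp, QuotientGroup.eq, mem_N]
      refine ⟨k, ?_, ?_⟩
      · simpa using hk
      · simp
    · rintro ⟨z, rfl⟩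
      rw [ιapp, ψapp]
      exact map_one ρ
  have hpow : ∀ g : G1, g ^ (3 ^ (k + k)) ∈ ι.range := by
    intro g
    rw [← ψker, map_pow, pow_add, hM.exp]
  have hcube : ∀ g : G1, g ^ 3 = 1 → g = 1 := by
    intro g hg
    obtain ⟨x, rfl⟩ := QuotientGroup.mk_surjective g
    rw [← QuotientGroup.mk_pow, QuotientGroup.eq_one_iff, mem_N] at hg
    obtain ⟨k, hk1, hk2⟩ := hg
    have hk3 : (3 : ℤ_[3]) * x.2.toAdd = -(k : ℤ_[3]) := by
      rw [← hk2]; simp
    have hdvd : ((3 : ℕ) : ℤ) ∣ k := by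
      rw [← PadicInt.norm_int_lt_one_iff_dvd (p := 3), PadicInt.norm_lt_one_iff_dvd]
      refine ⟨-x.2.toAdd, ?_⟩
      push_cast
      linear_combination hk3
    obtain ⟨j, rfl⟩ := hdvd
    rw [QuotientGroup.eq_one_iff, mem_N]
    refine ⟨j, ?_, ?_⟩
    · have h3 : (c ^ j * x.1⁻¹) ^ 3 = 1 := by
        have hcm : Commute (c ^ j) x.1⁻¹ := (hc _).zpow_left j
        rw [hcm.mul_pow, inv_pow, ← zpow_natCast (c ^ j), ← zpow_mul, mul_comm j, hk1]
        simp
      have := htf _ 3 (by norm_num) h3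
      exact mul_inv_eq_one.mp this
    · have h30 : (3 : ℤ_[3]) ≠ 0 := by norm_num
      apply mul_left_cancel₀ h30
      rw [hk3]
      push_cast
      ring
  have hcubes : ∀ (e : ℕ) (g : G1), g ^ (3 ^ e) = 1 → g = 1 := by
    intro e
    induction e with
    | zero => intro g hg; simpa using hg
    | succ e ih =>
      intro g hg
      rw [pow_succ, pow_mul] at hg
      exact ih g (hcube _ hg)
  have htf1 : ∀ (g : G1) (m : ℕ), 0 < m → g ^ m = 1 → g = 1 := by
    intro g m hm hg
    apply hcubes (k + k)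
    obtain ⟨z, hz⟩ := hpow g
    have h2 : ι (z ^ m) = 1 := by
      rw [map_pow, hz, ← pow_mul, mul_comm, pow_mul, hg, one_pow]
    have h3 : z ^ m = 1 := (injective_iff_map_eq_one ι).mp ιinj _ h2
    have h4 : z = 1 := by
      apply Multiplicative.toAdd.injective
      have h5 := congrArg Multiplicative.toAdd h3
      simp only [toAdd_pow, toAdd_one, nsmul_eq_mul, mul_eq_zero, Nat.cast_eq_zero] at h5
      rcases h5 with h5 | h5
      · omega
      · simpa using h5
    rw [← hz, h4, map_one]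
  have hnhds : (ι.range : Set G1) ∈ nhds (1 : G1) := by
    apply IsOpen.mem_nhds
    · exact ιemb.isOpen_range
    · exact ι.range.one_mem
  refine ⟨k, G1, Q, inferInstance, inferInstance, inferInstance, ι, ψ, a, inferInstance, ?_, ιemb,
    ?_, ψsurj, ?_, htf1, hM⟩
  · apply IsTopologicalGroup.t2Space_of_one_sep
    intro x hx
    by_cases hxr : x ∈ ι.range
    · obtain ⟨z, rfl⟩ := hxr
      refine ⟨ι '' {z}ᶜ, ?_, ?_⟩
      · apply IsOpen.mem_nhds (ιopen _ isOpen_compl_singleton)
        refine ⟨1, ?_, map_one ι⟩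
        intro h
        apply hx
        rw [Set.mem_singleton_iff] at h
        rw [← h, map_one]
      · rintro ⟨w, hw, hw2⟩
        exact hw (ιinj hw2)
    · exact ⟨_, hnhds, hxr⟩
  · ext g
    rw [Subgroup.mem_center_iff]
    constructor
    · intro h
      rw [← ψker]
      refine hM.center _ fun x => ?_
      obtain ⟨y, rfl⟩ := ψsurj x
      exact (show Commute y g from h y).map ψ
    · rintro ⟨z, rfl⟩ y
      exact (ιcomm z y).eq.symm
  · ext g
    rw [MonoidHom.mem_ker, ψker]

end Pool.Agent.H233Z.HM
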