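import Pool.Agent.H233Z.HM.Step

set_option autoImplicit false

/-!
# The invariant on the products of two conjugates of the marked element
-/

namespace Pool.Agent.H233Z.HM

open Pool.Agent.H59Z.NA Pool.Agent.SCZ.Grp Pool.Agent.H233Z.Tower

/-- The invariant of the marked element. -/
structure AI {Q V : Type} [Group Q] [MulAction Q V] (X : GM V) (a : Q) (m n : ℕ) : Prop where
  fix : ∃ p : V, ∀ g ∈ Subgroup.zpowers a, X.d p (g • p) ≤ 1
  pow : a ^ n = 1
  ne : a ^ (2 * m) ≠ 1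
  prod : ∀ x : Q, ¬ Commute x a → (a * (x * a * x⁻¹)) ^ n = 1 → (a * (x * a * x⁻¹)) ^ m = 1

variable {Q V I : Type} [Group Q] [MulAction Q V] [MulAction Q I] {X : GM V} {L : ℕ}
  {F : Fam Q V I X L} {R W J : Type} [Group R] [MulAction R W] [MulAction R J] {π : Q →* R}
  {A : AG R W J L} {φ : V → W} {ψ : I → J}

theorem ang_of_d (hq : SCZ.Geo.IsQuoP F π A φ ψ) (p q : V) (k : ℕ) (hk : k ≤ 1000)
    (hd : X.d p q ≤ k * L) (l : J) : A.ang l (φ p) (φ q) ≤ (k + 1001) * L := by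
  have hL : (1 : ℝ) ≤ L := by exact_mod_cast A.hL
  have hk' : (k : ℝ) ≤ 1000 := by exact_mod_cast hk
  have hd' : (X.d p q : ℝ) ≤ k * L := by exact_mod_cast hd
  have := hq.ang_le ((k + 1) * L) p q (fun i => by have := F.lip i p q; linarith) (by positivity)
    (by nlinarith) l
  linarith

theorem ai_step (hX : X.Inv Q) (hqP : SCZ.Geo.IsQuoP F π A φ ψ) (m n : ℕ) (hn : 0 < n)
    (hmu : ∀ i, F.mu i ∣ m) (a : Q) (ha : AI X a m n) : AI A.Z (π a) m n := by
  have hq := hqP.quo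
  have hL1 := A.hL
  have hL : (1 : ℝ) ≤ L := by exact_mod_cast A.hL
  obtain ⟨p, hp⟩ := ha.fix
  have hne : π a ^ (2 * m) ≠ 1 := by
    intro h
    rw [← map_pow] at h
    refine ha.ne (surv F π A φ hq _ p h ?_)
    have := hp _ (Subgroup.pow_mem _ (Subgroup.mem_zpowers a) (2 * m))
    omega
  have hpow : π a ^ n = 1 := by rw [← map_pow, ha.pow, map_one]
  have good : ∀ g ∈ Subgroup.zpowers (π a), ∀ l, A.ang l (φ p) (g • φ p) ≤ 3600 * L := by
    intro g hg l
    obtain ⟨k, rfl⟩ := Subgroup.mem_zpowers_iff.1 hg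
    rw [← map_zpow, ← hq.φ_smul]
    have h1 := hp _ (Subgroup.zpow_mem _ (Subgroup.mem_zpowers a) k)
    have := ang_of_d hqP p (a ^ k • p) 1 (by norm_num) (by omega) l
    push_cast at this
    linarith
  have nofix : ∀ l : J, π a • l ≠ l := by
    intro l hl
    obtain ⟨j, hj⟩ := A.rot _ l hl (by rintro h; exact hne (by rw [h, one_pow]))
    have h1 := hj (φ p)
    have h2 := good _ (Subgroup.pow_mem _ (Subgroup.mem_zpowers _) j) l
    linarith
  refine ⟨⟨φ p, ?_⟩, hpow, hne, ?_⟩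
  · intro g hg
    obtain ⟨k, rfl⟩ := Subgroup.mem_zpowers_iff.1 hg
    rw [← map_zpow, ← hq.φ_smul]
    have h1 := hp _ (Subgroup.zpow_mem _ (Subgroup.mem_zpowers a) k)
    exact hq.scale 0 _ _ (by omega)
  intro x hx hh
  set u := π a with hu
  set v := x * u * x⁻¹ with hv
  set h := u * v with hhdef
  by_cases hfix : ∃ l : J, h • l = l
  · obtain ⟨l, hl⟩ := hfix
    obtain ⟨i, hi⟩ := hq.stab l
    obtain ⟨e, he⟩ := Subgroup.mem_zpowers_iff.1 ((hi h).1 hl)
    obtain ⟨t, ht⟩ := hmu i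
    have := hq.rel i
    rw [map_pow] at this
    rw [← he, ← zpow_natCast, ← zpow_mul, mul_comm e (m : ℤ), zpow_mul, zpow_natCast, ht, pow_mul,
      this, one_pow, one_zpow]
  push Not at hfix
  have hfin : IsOfFinOrder h := isOfFinOrder_iff_pow_eq_one.2 ⟨n, hn, hh⟩
  set H : Subgroup R := Subgroup.zpowers h with hH
  have hhH : h ∈ H := Subgroup.mem_zpowers h
  have hHfin : (H : Set R).Finite := finite_zpowers.2 hfin
  obtain ⟨r, hr⟩ := (hHfin.image (fun g => A.Z.d (φ p) (g • φ p))).bddAbove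
  rcases thm_fp thm_pos R W J L A H (φ p) r (fun g hg => hr ⟨g, hg, rfl⟩) with ⟨l, hl⟩ | ⟨pb, hpb⟩
  · exact absurd (hl h hhH) (hfix l)
  have hvn : v ^ n = 1 := by rw [hv, conj_pow, hpow, mul_one, mul_inv_cancel]
  have goodv : ∀ g ∈ Subgroup.zpowers v, ∀ l, A.ang l (x • φ p) (g • x • φ p) ≤ 3600 * L := by
    intro g hg l
    obtain ⟨k, rfl⟩ := Subgroup.mem_zpowers_iff.1 hg
    have := good _ (Subgroup.zpow_mem _ (Subgroup.mem_zpowers u) k) (x⁻¹ • l)
    rw [← A.ang_smul x, smul_inv_smul] at this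
    rw [hv, conj_zpow, mul_smul, inv_smul_smul, mul_smul]
    exact this
  have nofixv : ∀ l : J, v • l ≠ l := by
    intro l hl
    apply nofix (x⁻¹ • l)
    rw [hv, mul_smul, mul_smul, smul_eq_iff_eq_inv_smul] at hl
    exact hl
  have t1 := tri A u v n hn hpow hvn hh (φ p) (x • φ p) (3600 * L) good goodv nofix nofixv
  have t2 := tri A u⁻¹ h n hn (by rw [inv_pow, hpow, inv_one]) hh
    (by rw [hhdef, inv_mul_cancel_left, hvn]) (φ p) pb (3600 * L)
    (by rw [Subgroup.zpowers_inv]; exact good) (fun g hg => (hpb g hg).2)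
    (fun l hl => nofix l (by rw [inv_smul_eq_iff] at hl; exact hl.symm)) hfix
  obtain ⟨q, hq1, -, hq2⟩ := hq.lift (12000 * L) p (x • φ p) (fun l => by linarith [t1 l])
    (by positivity)
  obtain ⟨r', hr1, -, hr2⟩ := hq.lift (12000 * L) p pb (fun l => by linarith [t2 l])
    (by positivity)
  subst hr1
  obtain ⟨lf, hlf1, hlf2⟩ := thm_lfp Q V I X L F R W J π A φ hX hq H r' hpb
  have hlf_one : lf 1 = 1 := by
    have := hlf2 1 H.one_mem 1 H.one_mem
    rw [mul_one] at this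
    exact left_eq_mul.1 this
  have hlf_pow : ∀ j : ℕ, lf (h ^ j) = lf h ^ j := by
    intro j
    induction j with
    | zero => rw [pow_zero, pow_zero, hlf_one]
    | succ j ih => rw [pow_succ, hlf2 _ (H.pow_mem hhH j) _ hhH, ih, pow_succ]
  obtain ⟨x0, hx0⟩ := hq.surj x
  obtain ⟨k, hk1, hk2⟩ := hq.φ_eq (x0 • p) q (by rw [hq.φ_smul, hx0, hq1])
  have hπ : π (k * x0) = x := by rw [map_mul, hk1, one_mul, hx0]
  have hNx : Tell.N F p (k * x0) (12000 * L + 1000 * L) := by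
    intro i
    rw [mul_smul, ← hk2]
    exact hq2 i
  have hNa : Tell.N F p a (2 * L) := by
    intro i
    have h1 := F.lip i p (a • p)
    have h2 : (X.d p (a • p) : ℝ) ≤ 1 := by exact_mod_cast hp a (Subgroup.mem_zpowers a)
    linarith
  have hNh : Tell.N F p (lf h) (30600 * L) := by
    intro i
    have h1 := hr2 i
    have h2 := (hlf1 h hhH).2.2 i
    have h3 := hr2 ((lf h)⁻¹ • i)
    have h4 := F.c_smul (lf h) ((lf h)⁻¹ • i) p r'
    rw [smul_inv_smul] at h4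
    rw [← h4] at h3
    rw [abs_le] at h1 h2 h3 ⊢
    constructor <;> linarith [h1.1, h1.2, h2.1, h2.2, h3.1, h3.2]
  have hN := (hNa.mul ((hNx.mul hNa).mul hNx.inv)).mul hNh.inv
  have h11 : a * (k * x0 * a * (k * x0)⁻¹) * (lf h)⁻¹ = 1 := by
    apply hq.inj _ p
    · rw [map_mul, map_mul, map_mul, map_mul, map_inv, map_inv, hπ, (hlf1 h hhH).1, ← hu, ← hv,
        ← hhdef, mul_inv_cancel]
    · intro i
      refine lt_of_le_of_lt (hN i) ?_
      nlinarith
  rw [mul_inv_eq_one] at h11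
  have h12 := ha.prod (k * x0) (fun hc => hx (by have := hc.map π; rwa [hπ] at this))
    (by rw [h11, ← hlf_pow, hh, hlf_one])
  rw [h11] at h12
  rw [← (hlf1 h hhH).1, ← map_pow, h12, map_one]

theorem ai_base (hX : X.Inv Q) (hqP : SCZ.Geo.IsQuoP F π A φ ψ) (m : ℕ) (hm : Odd m) (hm1 : 1 < m)
    (x₀ : Q) (o : V) (ho : X.d o (x₀ • o) ≤ 1) (i : I) (hi : x₀ = F.gen i ∨ x₀ = (F.gen i)⁻¹)
    (hmu : F.mu i = m * m) : ∃ e : ℕ, AI A.Z (π (x₀ ^ e)) m (m * m) := by
  have hq := hqP.quo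
  have hL1 := A.hL
  have hL : (1 : ℝ) ≤ L := by exact_mod_cast A.hL
  have hz : x₀ ∈ Subgroup.zpowers (F.gen i) := by
    rcases hi with h | h
    · rw [h]; exact Subgroup.mem_zpowers _
    · rw [h]; exact Subgroup.inv_mem _ (Subgroup.mem_zpowers _)
  have hd : ∀ p, X.d p (x₀ • p) = X.d p (F.gen i • p) := by
    intro p
    rcases hi with h | h
    · rw [h]
    · rw [h, ← hX (F.gen i), smul_inv_smul, X.comm]
  have hfix : ∀ g ∈ Subgroup.zpowers x₀, π g • ψ i = ψ i := by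
    intro g hg
    rw [← hqP.ψ_smul, (F.stab g i).2 ((Subgroup.zpowers_le.2 hz) hg)]
  have hord : ∀ k : ℕ, π x₀ ^ k = 1 → m * m ∣ k := by
    intro k hk
    rw [← map_pow] at hk
    obtain ⟨t, ht⟩ := Subgroup.mem_zpowers_iff.1
      (hq.kerstab i _ (Subgroup.pow_mem _ hz k) hk)
    rw [hmu, ← zpow_natCast, ← zpow_mul] at ht
    rcases hi with h | h
    · have := Text.gen_zpow_eq_one F i (k := (k : ℤ) - (m * m : ℕ) * t) (by
        rw [zpow_sub, ht, zpow_natCast, ← h, mul_inv_cancel])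
      exact Int.natCast_dvd_natCast.1 ⟨t, by linarith⟩
    · have := Text.gen_zpow_eq_one F i (k := (k : ℤ) + (m * m : ℕ) * t) (by
        rw [zpow_add, ht, zpow_natCast, h, inv_pow, mul_inv_cancel])
      exact Int.natCast_dvd_natCast.1 ⟨-t, by linarith⟩
  have hrel : π x₀ ^ (m * m) = 1 := by
    obtain ⟨t, rfl⟩ := Subgroup.mem_zpowers_iff.1 hz
    have := hq.rel i
    rw [hmu, map_pow] at this
    rw [map_zpow, ← zpow_natCast, ← zpow_mul, mul_comm t, zpow_mul, zpow_natCast, this, one_zpow]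
  have hne1 : π x₀ ≠ 1 := by
    intro h
    have := Nat.le_of_dvd one_pos (hord 1 (by rw [pow_one, h]))
    nlinarith
  have hl0 := hfix x₀ (Subgroup.mem_zpowers _)
  obtain ⟨j, hj⟩ := A.rot _ _ hl0 hne1
  have htr : F.tr i ≤ 2 * L := by
    have h1 := F.lip i o (F.gen i • o)
    have h2 : (X.d o (F.gen i • o) : ℝ) ≤ 1 := by rw [← hd]; exact_mod_cast ho
    rw [F.c_gen, abs_le] at h1
    linarith [h1.1]
  have small : ∀ w, A.ang (ψ i) w (π x₀ • w) ≤ 2204 * L := by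
    intro w
    obtain ⟨y, hy, ey⟩ := Tpos.eta_mem A.Z _ w (A.Y_ne (ψ i))
    have a1 := Tpos.p2 A (ψ i) w y ey.le
    have a2 := A.ang_smul (π x₀) (ψ i) w y
    rw [hl0] at a2
    obtain ⟨p, hp, rfl⟩ := hqP.Y_lift i y hy
    have hp' : F.gen i • p ∈ F.Y i := by
      have := (F.Y_smul (F.gen i) i p).2 hp
      rwa [(F.stab _ i).2 (Subgroup.mem_zpowers _)] at this
    have h1 := F.near i p hp _ hp'
    rw [F.c_gen, show F.c i p - (F.c i p + F.tr i) = -F.tr i by ring, abs_neg,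
      abs_of_pos (F.tr_pos i), ← hd] at h1
    have h2 : X.d p (x₀ • p) ≤ 3 * L := by
      have : (X.d p (x₀ • p) : ℝ) ≤ 3 * L := by linarith
      exact_mod_cast this
    have a3 := ang_of_d hqP p (x₀ • p) 3 (by norm_num) h2 (ψ i)
    rw [hq.φ_smul] at a3
    push_cast at a3
    have a4 := A.ang_tri (ψ i) w (φ p) (π x₀ • w)
    have a5 := A.ang_tri (ψ i) (φ p) (π x₀ • φ p) (π x₀ • w)
    have a6 := A.ang_comm (ψ i) (π x₀ • φ p) (π x₀ • w)
    linarith
  obtain ⟨e, he1, he2⟩ : ∃ e : ℕ, ¬ m ∣ e ∧ ∀ w, (3000 : ℝ) * L < A.ang (ψ i) w (π x₀ ^ e • w) := by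
    by_cases h : m ∣ j
    · refine ⟨j + 1, fun h' => ?_, fun w => ?_⟩
      · have := Nat.le_of_dvd one_pos ((Nat.dvd_add_right h).1 h')
        omega
      · have h1 := hj w
        have h2 := small (π x₀ ^ j • w)
        have h3 := A.ang_tri (ψ i) w (π x₀ • π x₀ ^ j • w) (π x₀ ^ j • w)
        have h4 := A.ang_comm (ψ i) (π x₀ • π x₀ ^ j • w) (π x₀ ^ j • w)
        rw [pow_succ', mul_smul]
        linarith
    · exact ⟨j, h, fun w => by linarith [hj w]⟩
  have hl1 : π (x₀ ^ e) • ψ i = ψ i := hfix _ (Subgroup.pow_mem _ (Subgroup.mem_zpowers _) e)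
  refine ⟨e, ?_, ?_, ?_, ?_⟩
  · obtain ⟨y, hy⟩ := A.Y_ne (ψ i)
    refine ⟨y, fun g hg => A.clique (ψ i) y hy _ ?_⟩
    obtain ⟨k, rfl⟩ := Subgroup.mem_zpowers_iff.1 hg
    have := (A.Y_smul (π (x₀ ^ e) ^ k) (ψ i) y).2 hy
    rwa [← map_zpow, hfix _ (Subgroup.zpow_mem _
      (Subgroup.pow_mem _ (Subgroup.mem_zpowers _) e) k), map_zpow] at this
  · rw [map_pow, ← pow_mul, mul_comm e, pow_mul, hrel, one_pow]
  · intro h
    rw [map_pow, ← pow_mul] at h
    have h1 := hord _ h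
    rw [show e * (2 * m) = m * (2 * e) by ring] at h1
    have h2 := Nat.dvd_of_mul_dvd_mul_left hm.pos h1
    exact he1 ((Nat.Coprime.dvd_mul_left (Nat.coprime_two_right.2 hm)).1 h2)
  · intro x hx hh
    exfalso
    refine rotprod A (π (x₀ ^ e)) (x * π (x₀ ^ e) * x⁻¹) (ψ i) (x • ψ i) ?_ hl1 ?_ ?_ ?_ (m * m)
      (Nat.mul_pos hm.pos hm.pos) hh
    · intro h
      apply hx
      obtain ⟨i', hi'⟩ := hq.stab (ψ i)
      obtain ⟨s, hs⟩ := Subgroup.mem_zpowers_iff.1 ((hi' x).1 h.symm)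
      obtain ⟨t, ht⟩ := Subgroup.mem_zpowers_iff.1 ((hi' _).1 hl1)
      rw [← hs, ← ht]
      exact (Commute.refl _).zpow_zpow s t
    · rw [mul_smul, inv_smul_smul, mul_smul, hl1]
    · intro w
      rw [map_pow]
      exact he2 w
    · intro w
      rw [ang_inv, mul_smul, mul_smul, inv_smul_smul, map_pow]
      exact he2 _

end Pool.Agent.H233Z.HM
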