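import Pool.Agent.H233Z.HM.Tower

set_option autoImplicit false

/-!
# The limit of the tower
-/

namespace Pool.Agent.H233Z.HM

open Pool.Agent.H59Z.NA Pool.Agent.SCZ.Grp Pool.Agent.H233Z.Tower

open Tadian (Gam c0 c0_comm c0_zpow)

/-- The algebraic properties of the limit group. -/
structure Monster (Q : Type) [Group Q] (a : Q) (m : ℕ) : Prop where
  exp : ∀ q : Q, q ^ (m * m) = 1
  ne : a ^ (2 * m) ≠ 1
  prod : ∀ x : Q, Commute x a ∨ (a * (x * a * x⁻¹)) ^ m = 1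
  cyc : ∀ u : Q, u ≠ 1 → ∀ S : Finset Q, (∀ x ∈ S, Commute x u) →
    ∃ g : Q, ∀ x ∈ S, x ∈ Subgroup.zpowers g
  hit : ∀ u v : Q, ¬ Commute u v → a ∈ Subgroup.closure ({u, v} : Set Q)
  nc : ∃ u v : Q, ¬ Commute u v

/-- A stage with the invariant of the marked element. -/
def St (m : ℕ) (a : Fr) : Type 1 := {S : Pre (m * m) τ₀ // AI S.X (S.b a) m (m * m)}

/-- The relation between two consecutive stages. -/
structure Nx2 {m : ℕ} {a : Fr} (u v : Fr) (S T : St m a) : Prop where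
  a_mono : ∀ g, S.1.a g = 1 → T.1.a g = 1
  len : ∀ w, T.1.len w ≤ 1 ∨ T.1.len w < S.1.len w
  kill : ∀ w, S.1.len w ≤ 1 → T.1.b w ^ (m * m) = 1
  hit : S.1.len a ≤ 1 → S.1.len u ≤ 1 → S.1.len v ≤ 1 → ¬ Commute (S.1.b u) (S.1.b v) →
    T.1.b a ∈ Subgroup.closure {T.1.b u, T.1.b v}

theorem exists_steps : ∃ k : ℕ, ∃ a : Fr, Nonempty (St (3 ^ k) a) ∧
    ∀ (u v : Fr) (S : St (3 ^ k) a), ∃ T : St (3 ^ k) a, Nx2 u v S T := by
  obtain ⟨τ₁, t1, t2, hlong⟩ := long_step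
  obtain ⟨k, hk⟩ := pow_unbounded_of_one_lt (2 * 10 ^ 18 / τ₁) (by norm_num : (1 : ℝ) < 3)
  have hm : Odd (3 ^ k) := Odd.pow (by decide)
  have hm1 : (2 * 10 ^ 18 : ℝ) ≤ (3 ^ k : ℕ) * τ₁ := by
    rw [div_lt_iff₀ t1] at hk
    push_cast
    exact hk.le
  have hm0 : (2 * 10 ^ 18 : ℝ) ≤ (3 ^ k : ℕ) * τ₀ :=
    hm1.trans (mul_le_mul_of_nonneg_left t2 (by positivity))
  have hn := hm.mul hm
  obtain ⟨T0, a, ha⟩ := first_step (3 ^ k) hm hm0
  refine ⟨k, a, ⟨⟨T0, ha⟩⟩, ?_⟩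
  rintro u v ⟨S, hS⟩
  by_cases hc : S.len a ≤ 1 ∧ S.len u ≤ 1 ∧ S.len v ≤ 1 ∧ ¬ Commute (S.b u) (S.b v)
  · obtain ⟨S', π, n1, e1, hS', hh⟩ := hlong _ hn S _ a u v hS hc.1 hc.2.1 hc.2.2.1 hc.2.2.2
    obtain ⟨T, π', n2, e2, hT, hk⟩ := power_step hn t1 S' _ (dvd_mul_right _ _) hm1 a hS'
    refine ⟨⟨T, hT⟩, fun g hg => n2.a_mono g (n1.a_mono g hg), fun w => ?_, fun w hw => ?_,
      fun _ _ _ _ => ?_⟩
    · have h1 := n1.len w
      have h2 := n2.len w
      change T.len w ≤ 1 ∨ T.len w < S.len w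
      omega
    · refine hk w ?_
      have h1 := n1.len w
      have hw' : S.len w ≤ 1 := hw
      omega
    · change T.b a ∈ Subgroup.closure {T.b u, T.b v}
      rw [e2, e2, e2]
      have := Subgroup.mem_map_of_mem π' hh
      rwa [MonoidHom.map_closure, Set.image_pair] at this
  · obtain ⟨T, π', n2, -, hT, hk⟩ := power_step hn (by norm_num) S _ (dvd_mul_right _ _) hm0 a hS
    exact ⟨⟨T, hT⟩, n2.a_mono, n2.len, hk, fun h1 h2 h3 h4 => absurd ⟨h1, h2, h3, h4⟩ hc⟩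

theorem exists_factor {F Q Q' : Type} [Group F] [Group Q] [Group Q'] (b : F →* Q)
    (hb : Function.Surjective b) (f : F →* Q') (h : ∀ w, b w = 1 → f w = 1) :
    ∃ π : Q →* Q', ∀ w, π (b w) = f w :=
  ⟨b.liftOfSurjective hb ⟨f, fun w hw => h w hw⟩, fun w => by simp⟩

theorem exists_monster : ∃ (k : ℕ) (G Q : Type) (_ : Group G) (_ : Group Q) (ρ : G →* Q) (c : G)
    (a : Q), CE ρ c ∧ Monster Q a (3 ^ k) := by
  classical
  obtain ⟨k, a, ⟨S0⟩, hstep⟩ := exists_steps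
  set m := 3 ^ k with hm
  choose nx hnx using hstep
  obtain ⟨f, hf⟩ := exists_surjective_nat (Fr × Fr)
  let e : ℕ → Fr × Fr := fun j => f (Nat.unpair j).1
  let S : ℕ → St m a := fun j => Nat.rec S0 (fun j T => nx (e j).1 (e j).2 T) j
  have hS : ∀ j, Nx2 (e j).1 (e j).2 (S j) (S (j + 1)) := fun j => hnx _ _ _
  have amono : ∀ k l, k ≤ l → ∀ g, (S k).1.a g = 1 → (S l).1.a g = 1 := by
    intro k l hkl g hg
    induction l, hkl using Nat.le_induction with
    | base => exact hg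
    | succ l _ ih => exact (hS l).a_mono g ih
  have bker : ∀ j w, (S j).1.b w = 1 ↔ ∃ t : ℤ, (S j).1.a ((w, 1) * (c0 ^ t)⁻¹) = 1 := by
    intro j w
    have h1 := (S j).1.sq (w, 1)
    constructor
    · intro h
      obtain ⟨t, ht⟩ := Subgroup.mem_zpowers_iff.1 (((S j).1.ce.ker _).1 (h1.trans h))
      exact ⟨t, by rw [map_mul, map_inv, map_zpow, ht, mul_inv_cancel]⟩
    · rintro ⟨t, ht⟩
      have h2 := (S j).1.sq ((w, 1) * (c0 ^ t)⁻¹)
      rw [ht, map_one, c0_zpow] at h2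
      simpa using h2.symm
  have bmono : ∀ k l, k ≤ l → ∀ w, (S k).1.b w = 1 → (S l).1.b w = 1 := by
    intro k l hkl w hw
    obtain ⟨t, ht⟩ := (bker k w).1 hw
    exact (bker l w).2 ⟨t, amono k l hkl _ ht⟩
  let K : Subgroup Gam :=
    { carrier := {g | ∃ k, (S k).1.a g = 1}
      one_mem' := ⟨0, map_one _⟩
      mul_mem' := by
        rintro g h ⟨k, hk⟩ ⟨l, hl⟩
        refine ⟨max k l, ?_⟩
        rw [map_mul, amono k _ (le_max_left _ _) g hk, amono l _ (le_max_right _ _) h hl, mul_one]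
      inv_mem' := by
        rintro g ⟨k, hk⟩
        exact ⟨k, by rw [map_inv, hk, inv_one]⟩ }
  have : K.Normal := by
    constructor
    rintro g ⟨k, hk⟩ h
    exact ⟨k, by rw [map_mul, map_mul, hk, mul_one, map_inv, mul_inv_cancel]⟩
  let M : Subgroup Fr :=
    { carrier := {w | ∃ k, (S k).1.b w = 1}
      one_mem' := ⟨0, map_one _⟩
      mul_mem' := by
        rintro g h ⟨k, hk⟩ ⟨l, hl⟩
        refine ⟨max k l, ?_⟩
        rw [map_mul, bmono k _ (le_max_left _ _) g hk, bmono l _ (le_max_right _ _) h hl, mul_one]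
      inv_mem' := by
        rintro g ⟨k, hk⟩
        exact ⟨k, by rw [map_inv, hk, inv_one]⟩ }
  have : M.Normal := by
    constructor
    rintro g ⟨k, hk⟩ h
    exact ⟨k, by rw [map_mul, map_mul, hk, mul_one, map_inv, mul_inv_cancel]⟩
  let β : Fr →* Fr ⧸ M := QuotientGroup.mk' M
  have hβ : ∀ w, β w = 1 ↔ ∃ k, (S k).1.b w = 1 := fun w => QuotientGroup.eq_one_iff w
  have βs : Function.Surjective β := QuotientGroup.mk'_surjective M
  have hπ : ∀ j, ∃ π : (S j).1.Q →* Fr ⧸ M, ∀ w, π ((S j).1.b w) = β w := fun j =>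
    exists_factor _ (S j).1.b_surj β fun w hw => (hβ w).2 ⟨j, hw⟩
  choose π hπ using hπ
  have ev : ∀ w, β w = 1 → ∃ k, ∀ l, k ≤ l → (S l).1.b w = 1 := by
    intro w hw
    obtain ⟨k, hk⟩ := (hβ w).1 hw
    exact ⟨k, fun l hl => bmono k l hl w hk⟩
  have evc : ∀ u v, Commute (β u) (β v) → ∃ k, ∀ l, k ≤ l →
      Commute ((S l).1.b u) ((S l).1.b v) := by
    intro u v h
    obtain ⟨k, hk⟩ := ev (u * v * (v * u)⁻¹) (by
      rw [map_mul, map_inv, map_mul, map_mul, h.eq, mul_inv_cancel])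
    refine ⟨k, fun l hl => ?_⟩
    have := hk l hl
    rwa [map_mul, map_inv, map_mul, map_mul, mul_inv_eq_one] at this
  have down : ∀ l u v, Commute ((S l).1.b u) ((S l).1.b v) → Commute (β u) (β v) := by
    intro l u v h
    have := h.map (π l)
    rwa [hπ, hπ] at this
  have short : ∀ w : Fr, ∃ k, ∀ l, k ≤ l → (S l).1.len w ≤ 1 := by
    intro w
    have h1 : ∃ k, (S k).1.len w ≤ 1 := by
      by_contra hcon
      push Not at hcon
      have dec : ∀ k, (S k).1.len w + k ≤ (S 0).1.len w := by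
        intro k
        induction k with
        | zero => simp
        | succ k ih =>
          rcases (hS k).len w with h | h
          · exact absurd h (not_le.2 (hcon (k + 1)))
          · omega
      have := dec ((S 0).1.len w + 1)
      omega
    obtain ⟨k, hk⟩ := h1
    refine ⟨k, fun l hl => ?_⟩
    induction l, hl using Nat.le_induction with
    | base => exact hk
    | succ l _ ih =>
      have := (hS l).len w
      omega
  have hexp : ∀ w : Fr, β w ^ (m * m) = 1 := by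
    intro w
    obtain ⟨k, hk⟩ := short w
    rw [← map_pow, hβ]
    exact ⟨k + 1, by rw [map_pow]; exact (hS k).kill w (hk k le_rfl)⟩
  let g₀ : Gam →* Fr ⧸ M := β.comp (MonoidHom.fst _ _)
  have hKf : K ≤ g₀.ker := by
    rintro g ⟨k, hk⟩
    rw [MonoidHom.mem_ker]
    exact (hβ g.1).2 ⟨k, by rw [← (S k).1.sq, hk, map_one]⟩
  refine ⟨k, Gam ⧸ K, Fr ⧸ M, inferInstance, inferInstance, QuotientGroup.lift K g₀ hKf,
    QuotientGroup.mk' K c0, β a, ⟨?_, ?_, ?_, ?_, ?_⟩, ⟨?_, ?_, ?_, ?_, ?_, ?_⟩⟩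
  · intro q
    obtain ⟨w, rfl⟩ := βs q
    exact ⟨QuotientGroup.mk' K (w, 1), rfl⟩
  · intro g
    obtain ⟨x, rfl⟩ := QuotientGroup.mk'_surjective K g
    have e : QuotientGroup.lift K g₀ hKf (QuotientGroup.mk' K x) = β x.1 := rfl
    rw [e, hβ]
    constructor
    · rintro ⟨k, hk⟩
      rw [← (S k).1.sq, (S k).1.ce.ker] at hk
      obtain ⟨j, hj⟩ := Subgroup.mem_zpowers_iff.1 hk
      refine Subgroup.mem_zpowers_iff.2 ⟨j, ?_⟩
      rw [← map_zpow]
      apply QuotientGroup.eq.2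
      refine ⟨k, ?_⟩
      rw [map_mul, map_inv, map_zpow, hj, inv_mul_cancel]
    · intro hx
      obtain ⟨j, hj⟩ := Subgroup.mem_zpowers_iff.1 hx
      rw [← map_zpow] at hj
      obtain ⟨k, hk⟩ : (c0 ^ j)⁻¹ * x ∈ K := QuotientGroup.eq.1 hj
      have h2 := (S k).1.sq ((c0 ^ j)⁻¹ * x)
      rw [hk, map_one, c0_zpow] at h2
      exact ⟨k, by simpa using h2.symm⟩
  · intro g
    obtain ⟨x, rfl⟩ := QuotientGroup.mk'_surjective K g
    exact (c0_comm x).map _
  · intro h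
    obtain ⟨k, hk⟩ := (QuotientGroup.eq_one_iff c0).1 h
    exact (S k).1.ce.ne hk
  · intro g m hm hg
    obtain ⟨x, rfl⟩ := QuotientGroup.mk'_surjective K g
    rw [← map_pow] at hg
    obtain ⟨k, hk⟩ := (QuotientGroup.eq_one_iff (x ^ m)).1 hg
    rw [map_pow] at hk
    exact (QuotientGroup.eq_one_iff x).2 ⟨k, (S k).1.ce.tf _ m hm hk⟩
  · intro q
    obtain ⟨w, rfl⟩ := βs q
    exact hexp w
  · intro h
    rw [← map_pow, hβ] at h
    obtain ⟨j, hj⟩ := h
    exact (S j).2.ne (by rw [← map_pow, hj])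
  · intro x
    obtain ⟨w, rfl⟩ := βs x
    by_cases hc : Commute (β w) (β a)
    · exact Or.inl hc
    right
    have h1 := hexp (a * (w * a * w⁻¹))
    rw [← map_pow, hβ] at h1
    obtain ⟨j, hj⟩ := h1
    have h2 := (S j).2.prod ((S j).1.b w) (fun h => hc (down j _ _ h))
      (by simpa only [map_pow, map_mul, map_inv] using hj)
    have h3 := congrArg (π j) h2
    simpa only [map_pow, map_mul, map_inv, hπ, map_one] using h3
  · intro u hu T hT
    obtain ⟨w, rfl⟩ := βs u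
    choose o ho using βs
    have h1 : ∀ x ∈ T, ∃ k, ∀ l, k ≤ l → Commute ((S l).1.b (o x)) ((S l).1.b w) :=
      fun x hx => evc _ _ (by rw [ho]; exact hT x hx)
    choose! kk hkk using h1
    obtain ⟨g, hg⟩ := (S (T.sup kk)).1.good.cyc ((S (T.sup kk)).1.b w)
      (fun h => hu ((hβ w).2 ⟨_, h⟩))
    refine ⟨π _ g, fun x hx => ?_⟩
    obtain ⟨t, ht⟩ := Subgroup.mem_zpowers_iff.1 (hg _ (hkk x hx _ (Finset.le_sup hx)))
    exact Subgroup.mem_zpowers_iff.2 ⟨t, by rw [← map_zpow, ht, hπ, ho]⟩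
  · intro u v huv
    obtain ⟨u, rfl⟩ := βs u
    obtain ⟨v, rfl⟩ := βs v
    obtain ⟨k1, h1⟩ := short a
    obtain ⟨k2, h2⟩ := short u
    obtain ⟨k3, h3⟩ := short v
    obtain ⟨i, hi⟩ := hf (u, v)
    set j := Nat.pair i (k1 + k2 + k3) with hj
    have hle : k1 + k2 + k3 ≤ j := Nat.right_le_pair _ _
    have he : e j = (u, v) := by simp only [e, hj, Nat.unpair_pair, hi]
    have h4 := hS j
    rw [he] at h4
    have h5 := h4.hit (h1 j (by omega)) (h2 j (by omega)) (h3 j (by omega))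
      (fun h => huv (down j _ _ h))
    have h6 := Subgroup.mem_map_of_mem (π (j + 1)) h5
    rwa [MonoidHom.map_closure, Set.image_pair, hπ, hπ, hπ] at h6
  · refine ⟨β (FreeGroup.of 0), β (FreeGroup.of 1), fun h => ?_⟩
    obtain ⟨j, hj⟩ := evc _ _ h
    exact (S j).1.nc (hj j le_rfl)

end Pool.Agent.H233Z.HM
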