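import Pool.Agent.H233Z.HM.Chain
import Pool.Agent.H233Z.TowerAll
import Pool.Agent.SCZ.Geo.TquoP
import Pool.Agent.SCZ.Grp.St

set_option autoImplicit false

/-!
# One step of small cancellation along an arbitrary family, for a central extension
-/

namespace Pool.Agent.H233Z.HM

open Pool.Agent.H59Z.NA Pool.Agent.SCZ.Grp Pool.Agent.H233Z.Tower

/-- Bounded subgroups are commutative. -/
def BC {V : Type} (X : GM V) (Q : Type) [Group Q] [MulAction Q V] : Prop :=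
  ∀ H : Subgroup Q, Bdd X H → ∀ u ∈ H, ∀ v ∈ H, Commute u v

/-- A torsion-free central extension by an infinite cyclic group. -/
structure CE {G Q : Type} [Group G] [Group Q] (ρ : G →* Q) (c : G) : Prop where
  surj : Function.Surjective ρ
  ker : ∀ g, ρ g = 1 ↔ g ∈ Subgroup.zpowers c
  cen : ∀ g, Commute c g
  ne : c ≠ 1
  tf : ∀ (g : G) (m : ℕ), 0 < m → g ^ m = 1 → g = 1

section

variable {Q V I : Type} [Group Q] [MulAction Q V] [MulAction Q I] {X : GM V} {L : ℕ}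
  (F : Fam Q V I X L)

theorem mu_pos (hL : 1 ≤ L) (i : I) : 0 < F.mu i := by
  have h := F.big i
  have hL' : (1 : ℝ) ≤ L := by exact_mod_cast hL
  rcases Nat.eq_zero_or_pos (F.mu i) with h0 | h0
  · rw [h0] at h
    norm_num at h
    linarith
  · exact h0

theorem bc_step {R W J : Type} [Group R] [MulAction R W] [MulAction R J] (π : Q →* R)
    (A : AG R W J L) (φ : V → W) (hX : X.Inv Q) (hq : IsQuo F π A φ) (hb : BC X Q) :
    BC A.Z R := by
  rintro H ⟨x, r, hr⟩ u hu v hv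
  rcases thm_fp thm_pos R W J L A H x r hr with ⟨l, hl⟩ | ⟨pb, hpb⟩
  · obtain ⟨i, hi⟩ := hq.stab l
    obtain ⟨a, rfl⟩ := Subgroup.mem_zpowers_iff.1 ((hi u).1 (hl u hu))
    obtain ⟨b, rfl⟩ := Subgroup.mem_zpowers_iff.1 ((hi v).1 (hl v hv))
    exact (Commute.refl _).zpow_zpow a b
  obtain ⟨p, rfl⟩ := hq.φ_surj pb
  obtain ⟨lf, h1, h2⟩ := thm_lfp Q V I X L F R W J π A φ hX hq H p hpb
  have hone : lf 1 = 1 := by
    have := h2 1 H.one_mem 1 H.one_mem
    rw [mul_one] at this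
    exact left_eq_mul.1 this
  let H' : Subgroup Q :=
    { carrier := {g | ∃ h ∈ H, lf h = g}
      one_mem' := ⟨1, H.one_mem, hone⟩
      mul_mem' := by
        rintro _ _ ⟨a, ha, rfl⟩ ⟨b, hb, rfl⟩
        exact ⟨a * b, H.mul_mem ha hb, h2 a ha b hb⟩
      inv_mem' := by
        rintro _ ⟨a, ha, rfl⟩
        refine ⟨a⁻¹, H.inv_mem ha, ?_⟩
        have := h2 a ha a⁻¹ (H.inv_mem ha)
        rw [mul_inv_cancel, hone] at this
        exact (eq_inv_of_mul_eq_one_right this.symm) }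
  have hc := hb H' ⟨p, 2000000 * L, by
    rintro _ ⟨h, hh, rfl⟩
    exact (h1 h hh).2.1⟩ (lf u) ⟨u, hu, rfl⟩ (lf v) ⟨v, hv, rfl⟩
  have := hc.map π
  rwa [(h1 u hu).1, (h1 v hv).1] at this

/-- Elements of small displacement survive. -/
theorem surv {R W J : Type} [Group R] [MulAction R W] [MulAction R J] (π : Q →* R)
    (A : AG R W J L) (φ : V → W) (hq : IsQuo F π A φ) (k : Q) (p : V) (hk : π k = 1)
    (hd : X.d p (k • p) ≤ 1000 * L) : k = 1 := by
  have hL : (1 : ℝ) ≤ L := by exact_mod_cast A.hL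
  refine hq.inj k p hk fun i => ?_
  have h1 := F.lip i p (k • p)
  have h2 : (X.d p (k • p) : ℝ) ≤ 1000 * L := by exact_mod_cast hd
  linarith

theorem fam_step {G : Type} [Group G] (ρ : G →* Q) (c : G) (hc : CE ρ c) (n : ℕ) (hn : Odd n)
    (τ₀ τ₁ : ℝ) (hg : Good Q V X 122 (10 ^ 9) τ₀ n) (hmu : ∀ i, F.mu i ∣ n)
    (hL : 10 ^ 9 + 40 * 122 ≤ L) (t1 : 0 < τ₁) (t2 : τ₁ ≤ 1)
    (htri : ∀ g : Q, g ^ n = 1 ∨ (∃ i, g ∈ Subgroup.zpowers (F.gen i)) ∨ τ₁ ≤ X.tau g) :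
    ∃ (G' W J : Type) (_ : Group G') (_ : MulAction (Q ⧸ F.K) W) (_ : MulAction (Q ⧸ F.K) J)
      (A : AG (Q ⧸ F.K) W J L) (φ : V → W) (ψ : I → J) (α : G →* G') (ρ' : G' →* Q ⧸ F.K),
      SCZ.Geo.IsQuoP F (QuotientGroup.mk' F.K) A φ ψ ∧
      Good (Q ⧸ F.K) W A.Z 122 (10 ^ 9) (τ₁ / (15000 * L)) n ∧ CE ρ' (α c) ∧
      Function.Surjective α ∧ ∀ g, ρ' (α g) = QuotientGroup.mk' F.K (ρ g) := by
  have hn0 : 0 < n := hn.pos
  have hL1 : 1 ≤ L := by omega
  obtain ⟨E, hE⟩ := s_elec Q V I X 122 L F hg.inv hg.four (by omega) hL1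
  have hzp : ∀ i, ∀ k : ℤ, (F.gen i ^ F.mu i) ^ k = 1 → k = 0 := by
    intro i k hk
    rw [← zpow_natCast, ← zpow_mul] at hk
    have := Text.gen_zpow_eq_one F i hk
    exact (mul_eq_zero.1 this).resolve_left (by exact_mod_cast (mu_pos F hL1 i).ne')
  have hInd := thm_wind Q V I X _ F E hg.inv hL1 hE Q (MonoidHom.id Q)
    (fun i => Subgroup.zpowers (F.gen i ^ F.mu i))
    (by
      intro g i x hx
      obtain ⟨k, rfl⟩ := Subgroup.mem_zpowers_iff.1 hx
      refine Subgroup.mem_zpowers_iff.2 ⟨k, ?_⟩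
      simp only [MonoidHom.id_apply, F.gen_smul, F.mu_smul, conj_pow, conj_zpow])
    (fun i x hx => hx) (fun i x _ hx => hx)
  obtain ⟨W, J, _, _, A, φ, ψ, hqP⟩ := SCZ.Geo.thm_quoP Q V I X L F E hg.ne hg.inv hL1 hE hInd
  have hq := hqP.quo
  obtain ⟨hg', htor⟩ := s_step Q V I X 122 (10 ^ 9) L n _ τ₁ F _ W J _ A φ hg hn hmu hL t1 t2
    htri hq
  have hρc : ρ c = 1 := (hc.ker c).2 (Subgroup.mem_zpowers c)
  obtain ⟨a, T, ha, hT⟩ := Text.lifts F ρ hc.surj 1 id (fun g => (pow_one _).symm)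
    (fun g => Commute.refl g) (fun g e he => by
      obtain ⟨k, rfl⟩ := Subgroup.mem_zpowers_iff.1 ((hc.ker e).1 he)
      exact ((hc.cen g).zpow_left k).symm)
  set gt : I → G := fun i => T i * a i * (T i)⁻¹ with hgt
  have ha' : ∀ i, ρ (gt i) = F.gen i := ha
  have hT' : ∀ g i, g * gt i * g⁻¹ = gt (ρ g • i) := hT
  set r : I → G := fun i => gt i ^ F.mu i * c⁻¹ with hr
  have hρr : ∀ i, ρ (r i) = F.gen i ^ F.mu i := by
    intro i
    simp only [hr, map_mul, map_inv, map_pow, ha', hρc, inv_one, mul_one]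
  have hconj : ∀ (g : G) (i : I), ∀ x ∈ Subgroup.zpowers (r i),
      g * x * g⁻¹ ∈ Subgroup.zpowers (r (ρ g • i)) := by
    intro g i x hx
    obtain ⟨k, rfl⟩ := Subgroup.mem_zpowers_iff.1 hx
    refine Subgroup.mem_zpowers_iff.2 ⟨k, ?_⟩
    rw [← conj_zpow]
    congr 1
    simp only [hr, ← hT', F.mu_smul, conj_pow]
    rw [mul_assoc _ g⁻¹, ← (hc.cen g⁻¹).inv_left.eq]
    group
  have hInd2 := thm_wind Q V I X _ F E hg.inv hL1 hE G ρ (fun i => Subgroup.zpowers (r i))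
    hconj
    (by
      intro i x hx
      obtain ⟨k, rfl⟩ := Subgroup.mem_zpowers_iff.1 hx
      exact Subgroup.mem_zpowers_iff.2 ⟨k, by rw [map_zpow, hρr]⟩)
    (by
      intro i x hx h0
      obtain ⟨k, rfl⟩ := Subgroup.mem_zpowers_iff.1 hx
      rw [map_zpow, hρr] at h0
      rw [hzp i k h0, zpow_zero])
  set K : Subgroup G := ⨆ i, Subgroup.zpowers (r i) with hK
  have hKn : K.Normal := by
    constructor
    intro k hk g
    refine Subgroup.iSup_induction (C := fun k => g * k * g⁻¹ ∈ K) _ hk ?_ ?_ ?_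
    · intro i x hx
      exact Subgroup.mem_iSup_of_mem _ (hconj g i x hx)
    · simp
    · intro x y hx hy
      have : g * (x * y) * g⁻¹ = (g * x * g⁻¹) * (g * y * g⁻¹) := by group
      rw [this]; exact K.mul_mem hx hy
  have hrK : ∀ i, r i ∈ K := fun i => Subgroup.mem_iSup_of_mem i (Subgroup.mem_zpowers _)
  have hmap : K.map ρ = F.K := by
    apply le_antisymm
    · rw [Subgroup.map_le_iff_le_comap]
      refine iSup_le fun i => ?_
      rw [Subgroup.zpowers_le, Subgroup.mem_comap, hρr]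
      exact Subgroup.subset_closure ⟨i, rfl⟩
    · rw [Fam.K, Subgroup.closure_le]
      rintro _ ⟨i, rfl⟩
      exact ⟨r i, hrK i, hρr i⟩
  have hβ : ∀ q : Q, QuotientGroup.mk' F.K q = 1 ↔ q ∈ F.K := fun q => QuotientGroup.eq_one_iff q
  have hKE : ∀ k ∈ K, ρ k = 1 → k = 1 := by
    obtain ⟨x⟩ := hg.ne
    have hL' : (1 : ℝ) ≤ L := by exact_mod_cast hL1
    refine hInd2 x (fun k => ρ k = 1 → k = 1) (fun _ => rfl) ?_
    intro k _ i y _ hb _ hk
    rw [hk, one_smul, sub_self, abs_zero] at hb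
    linarith
  have hK1 : ∀ g, QuotientGroup.mk' F.K (ρ g) = 1 ↔ ∃ k ∈ K, ρ k = ρ g := by
    intro g
    rw [hβ, ← hmap]
    rfl
  let ρ' : G ⧸ K →* Q ⧸ F.K := QuotientGroup.lift K ((QuotientGroup.mk' F.K).comp ρ)
    fun k hk => (hK1 k).2 ⟨k, hk, rfl⟩
  have hρ' : ∀ g : G, ρ' (QuotientGroup.mk' K g) = QuotientGroup.mk' F.K (ρ g) := fun g => rfl
  have hα : ∀ g : G, QuotientGroup.mk' K g = 1 ↔ g ∈ K := fun g => QuotientGroup.eq_one_iff g
  have hcz : ∀ k : ℤ, QuotientGroup.mk' K c ^ k = 1 → k = 0 := by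
    intro k hk
    rw [← map_zpow, hα] at hk
    have h1 := hKE _ hk (by rw [map_zpow, hρc, one_zpow])
    by_contra h0
    exact hc.ne (hc.tf c k.natAbs (Int.natAbs_pos.2 h0) (pow_natAbs_eq_one.2 h1))
  have hsame : ∀ g g0 : G, QuotientGroup.mk' F.K (ρ g0) = QuotientGroup.mk' F.K (ρ g) →
      ∃ j : ℤ, QuotientGroup.mk' K g = QuotientGroup.mk' K (g0 * c ^ j) := by
    intro g g0 h
    obtain ⟨k, hk, hk2⟩ := (hK1 (g0⁻¹ * g)).1 (by
      rw [map_mul, map_mul, map_inv, map_inv, h, inv_mul_cancel])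
    obtain ⟨j, hj⟩ := Subgroup.mem_zpowers_iff.1 ((hc.ker (k⁻¹ * (g0⁻¹ * g))).1
      (by rw [map_mul, map_inv, hk2, inv_mul_cancel]))
    refine ⟨j, ?_⟩
    rw [hj, map_mul, map_mul, map_inv, (hα k).2 hk, inv_one, one_mul, ← map_mul,
      mul_inv_cancel_left]
  refine ⟨G ⧸ K, W, J, inferInstance, inferInstance, inferInstance, A, φ, ψ, QuotientGroup.mk' K,
    ρ', hqP, hg', ⟨?_, ?_, ?_, ?_, ?_⟩, QuotientGroup.mk'_surjective K, hρ'⟩
  · intro q
    obtain ⟨q, rfl⟩ := hq.surj q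
    obtain ⟨g, rfl⟩ := hc.surj q
    exact ⟨QuotientGroup.mk' K g, rfl⟩
  · intro g
    obtain ⟨g, rfl⟩ := QuotientGroup.mk'_surjective K g
    constructor
    · intro h
      obtain ⟨j, hj⟩ := hsame g 1 (by rw [map_one, map_one, ← hρ', h])
      exact Subgroup.mem_zpowers_iff.2 ⟨j, by rw [hj, one_mul, map_zpow]⟩
    · intro h
      obtain ⟨j, hj⟩ := Subgroup.mem_zpowers_iff.1 h
      rw [← hj, map_zpow, hρ', hρc, map_one, one_zpow]
  · intro g
    obtain ⟨g, rfl⟩ := QuotientGroup.mk'_surjective K g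
    exact (hc.cen g).map _
  · intro h
    exact one_ne_zero (hcz 1 (by rw [zpow_one, h]))
  · intro g M hM hgM
    obtain ⟨g, rfl⟩ := QuotientGroup.mk'_surjective K g
    obtain ⟨q0, hq0, h0⟩ := htor (QuotientGroup.mk' F.K (ρ g)) M hM
      (by rw [← hρ', ← map_pow, hgM, map_one])
    rcases h0 with h0 | ⟨i, h0⟩
    · obtain ⟨g0, rfl⟩ := hc.surj q0
      obtain ⟨j, hj⟩ := hsame g g0 hq0
      rw [hj] at hgM ⊢
      rw [← map_pow, hα] at hgM
      have h1 := hKE _ (K.pow_mem hgM n) (by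
        rw [← pow_mul, mul_comm M n, pow_mul, map_pow, map_pow, map_mul, map_zpow, hρc, one_zpow,
          mul_one, h0, one_pow])
      rw [← pow_mul] at h1
      rw [hc.tf _ _ (Nat.mul_pos hM hn0) h1, map_one]
    · obtain ⟨e, rfl⟩ := Subgroup.mem_zpowers_iff.1 h0
      obtain ⟨j, hj⟩ := hsame g (gt i ^ e) (by rw [← hq0, map_zpow ρ, ha'])
      have h1 : QuotientGroup.mk' K c = QuotientGroup.mk' K (gt i) ^ (F.mu i : ℤ) := by
        have := (hα _).2 (hrK i)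
        rw [hr, map_mul, map_inv, mul_inv_eq_one, map_pow] at this
        rw [← this, zpow_natCast]
      rw [map_mul, map_zpow, map_zpow, h1, ← zpow_mul, ← zpow_add] at hj
      rw [hj] at hgM ⊢
      have h2 := hcz ((e + F.mu i * j) * M) (by
        rw [h1, ← zpow_mul, mul_comm (F.mu i : ℤ) ((e + F.mu i * j) * M), zpow_mul, zpow_mul,
          zpow_natCast _ M, hgM, one_zpow])
      rw [(mul_eq_zero.1 h2).resolve_right (by exact_mod_cast hM.ne'), zpow_zero]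

end

end Pool.Agent.H233Z.HM
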