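import Pool.Agent.H233Z.HM.Inv
import Pool.Agent.H59Z.NA.Tadian
import Pool.Agent.SCZ.Grp.Tfix
import Pool.Agent.SCZ.Grp.Tlong
import Pool.Agent.SCZ.Grp.Tw3
import Pool.Agent.SCZ.Grp.Tw5
import Pool.Agent.SCZ.Grp.Tword

set_option autoImplicit false

/-!
# The stages of the tower
-/

namespace Pool.Agent.H233Z.HM

open Pool.Agent.H59Z.NA Pool.Agent.SCZ.Grp Pool.Agent.H233Z.Tower

open Tadian (Gam c0 c0_comm c0_zpow)

theorem good_mono {Q V : Type} [Group Q] [MulAction Q V] {X : GM V} {δ A n : ℕ} {τ τ' : ℝ}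
    (h : Good Q V X δ A τ n) (hτ : τ' ≤ τ) : Good Q V X δ A τ' n :=
  ⟨h.ne, h.inv, h.four, fun g => (h.dich g).imp id hτ.trans, h.cyc, h.mal, h.acyl⟩

/-- The family of axes of all short loxodromic elements, with prescribed exponents. -/
theorem lines_var (n : ℕ) (Q V : Type) [Group Q] [MulAction Q V] (X : GM V) (τ : ℝ) (hτ : 0 < τ)
    (hg : Good Q V X 122 (10 ^ 9) τ n) (mf : Q → ℕ) (hm1 : ∀ g s, mf (s * g * s⁻¹) = mf g)
    (hm2 : ∀ g, (2 * 10 ^ 18 : ℝ) ≤ mf g * τ) :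
    ∃ (I : Type) (_ : MulAction Q I) (F : Fam Q V I X (2 * 10 ^ 9)),
      (∀ i, F.mu i = mf (F.gen i)) ∧
      ∀ g : Q, g ^ n = 1 ∨ (∃ i, g ∈ Subgroup.zpowers (F.gen i)) ∨ 1 < X.tau g := by
  obtain ⟨-, t2, -, t4, t5, -, -⟩ := thm_tau Q V X hg.inv
  obtain ⟨I, _, F, hF1, hF2⟩ := s_lines Q V X 122 (10 ^ 9) (2 * 10 ^ 9) 1
    (fun g => g ^ n ≠ 1 ∧ X.tau g ≤ 1 ∧ ∀ a, Commute a g → a ∈ Subgroup.zpowers g)
    mf hg.inv hg.four hg.cyc hg.mal hg.acyl (by norm_num) (by norm_num)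
    (by
      rintro g s ⟨p1, p2, p3⟩
      refine ⟨⟨?_, by rw [t5]; exact p2, ?_⟩, hm1 g s⟩
      · intro h0
        rw [conj_pow] at h0
        apply p1
        have : g ^ n = s⁻¹ * (s * g ^ n * s⁻¹) * s := by group
        rw [this, h0]; group
      · intro a ha
        have hc : Commute (s⁻¹ * a * s) g := by
          have e := ha.eq
          change s⁻¹ * a * s * g = g * (s⁻¹ * a * s)
          calc s⁻¹ * a * s * g = s⁻¹ * (a * (s * g * s⁻¹)) * s := by group
            _ = s⁻¹ * ((s * g * s⁻¹) * a) * s := by rw [e]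
            _ = g * (s⁻¹ * a * s) := by group
        obtain ⟨k, hk⟩ := Subgroup.mem_zpowers_iff.1 (p3 _ hc)
        refine Subgroup.mem_zpowers_iff.2 ⟨k, ?_⟩
        rw [conj_zpow, hk]; group)
    (by
      rintro g ⟨p1, p2, p3⟩
      have h0 := (hg.dich g).resolve_left p1
      refine ⟨lt_of_lt_of_le hτ h0, by exact_mod_cast p2, p3, ?_⟩
      have h1 : (mf g : ℝ) * τ ≤ mf g * X.tau g := mul_le_mul_of_nonneg_left h0 (by positivity)
      have h2 := hm2 g
      push_cast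
      linarith)
  refine ⟨I, inferInstance, F, fun i => (hF1 i).2, fun g => ?_⟩
  by_cases p1 : g ^ n = 1
  · exact Or.inl p1
  by_cases p2 : 1 < X.tau g
  · exact Or.inr (Or.inr p2)
  push Not at p2
  have hg1 : g ≠ 1 := by rintro rfl; exact p1 (one_pow n)
  obtain ⟨g0, hg0⟩ := hg.cyc g hg1
  obtain ⟨e, he⟩ := Subgroup.mem_zpowers_iff.1 (hg0 g (Commute.refl g))
  have he0 : e ≠ 0 := by rintro rfl; exact hg1 (by rw [← he, zpow_zero])
  have q1 : g0 ^ n ≠ 1 := by
    intro h0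
    apply p1
    rw [← he, ← zpow_natCast, ← zpow_mul, mul_comm e (n : ℤ), zpow_mul, zpow_natCast, h0, one_zpow]
  have q2 : X.tau g0 ≤ 1 := by
    have h1 := t4 g0 e
    rw [he] at h1
    have h2 : (1 : ℝ) ≤ |(e : ℝ)| := by exact_mod_cast Int.one_le_abs he0
    nlinarith [t2 g0]
  have q3 : ∀ a, Commute a g0 → a ∈ Subgroup.zpowers g0 := by
    intro a ha
    apply hg0
    rw [← he]
    exact ha.zpow_right e
  obtain ⟨i, hi⟩ := hF2 g0 ⟨q1, q2, q3⟩
  refine Or.inr (Or.inl ⟨i, ?_⟩)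
  rw [← he]
  refine Subgroup.zpow_mem _ ?_ e
  rcases hi with hi | hi
  · rw [hi]; exact Subgroup.mem_zpowers _
  · rw [hi]; exact Subgroup.inv_mem _ (Subgroup.mem_zpowers _)

/-- One stage of the tower. -/
structure Pre (n : ℕ) (τ : ℝ) : Type 1 where
  G : Type
  Q : Type
  V : Type
  [gG : Group G]
  [gQ : Group Q]
  [act : MulAction Q V]
  X : GM V
  ρ : G →* Q
  a : Gam →* G
  b : Fr →* Q
  pt : V
  good : Good Q V X 122 (10 ^ 9) τ n
  ce : CE ρ (a c0)
  a_surj : Function.Surjective a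
  sq : ∀ g : Gam, ρ (a g) = b g.1
  bc : BC X Q
  gen1 : ∀ i, X.d pt (b (FreeGroup.of i) • pt) ≤ 1
  nc : ¬ Commute (b (FreeGroup.of 0)) (b (FreeGroup.of 1))

attribute [instance] Pre.gG Pre.gQ Pre.act

variable {n : ℕ} {τ τ' : ℝ}

/-- The displacement of the base point by a word. -/
def Pre.len (S : Pre n τ) (w : Fr) : ℕ := S.X.d S.pt (S.b w • S.pt)

theorem Pre.b_surj (S : Pre n τ) : Function.Surjective S.b := by
  intro q
  obtain ⟨g, rfl⟩ := S.ce.surj q
  obtain ⟨x, rfl⟩ := S.a_surj g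
  exact ⟨x.1, (S.sq x).symm⟩

theorem Pre.tau_le (S : Pre n τ) (w : Fr) : S.X.tau (S.b w) ≤ S.len w := by
  have h := (thm_tau S.Q S.V S.X S.good.inv).1 (S.b w) S.pt 1
  rwa [pow_one, Nat.cast_one, mul_one] at h

/-- The relation between two consecutive stages. -/
structure Nx (S : Pre n τ) (T : Pre n τ') : Prop where
  a_mono : ∀ g, S.a g = 1 → T.a g = 1
  len : ∀ w, T.len w ≤ 1 ∨ T.len w < S.len w

theorem pre_step (hn : Odd n) (S : Pre n τ) {I : Type} [MulAction S.Q I] {L : ℕ}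
    (F : Fam S.Q S.V I S.X L) (τ₁ : ℝ) (hmu : ∀ i, F.mu i ∣ n)
    (hL : 10 ^ 9 + 40 * 122 ≤ L) (t1 : 0 < τ₁) (t2 : τ₁ ≤ 1)
    (htri : ∀ g : S.Q, g ^ n = 1 ∨ (∃ i, g ∈ Subgroup.zpowers (F.gen i)) ∨ τ₁ ≤ S.X.tau g)
    (hτ : τ' ≤ τ₁ / (15000 * L)) :
    ∃ (T : Pre n τ') (π : S.Q →* T.Q), Nx S T ∧ (∀ w, T.b w = π (S.b w)) ∧
      (∀ i, π (F.gen i) ^ F.mu i = 1) ∧
      (∀ (a : Fr) (m : ℕ), (∀ i, F.mu i ∣ m) → AI S.X (S.b a) m n → AI T.X (T.b a) m n) ∧
      ∀ (m : ℕ) (i : I), Odd m → 1 < m → F.mu i = m * m →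
        (S.b (FreeGroup.of 0) = F.gen i ∨ S.b (FreeGroup.of 0) = (F.gen i)⁻¹) →
        ∃ e : ℕ, AI T.X (T.b (FreeGroup.of 0 ^ e)) m (m * m) := by
  obtain ⟨G', W, J, _, _, _, A, φ, ψ, α, ρ', hqP, hg', hce, hα, hsq⟩ :=
    fam_step F S.ρ (S.a c0) S.ce n hn τ τ₁ S.good hmu hL t1 t2 htri
  have hq := hqP.quo
  have hX := S.good.inv
  refine ⟨{ G := G', Q := S.Q ⧸ F.K, V := W, X := A.Z, ρ := ρ', a := α.comp S.a,
            b := (QuotientGroup.mk' F.K).comp S.b, pt := φ S.pt, good := good_mono hg' hτ,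
            ce := hce, a_surj := hα.comp S.a_surj, sq := ?_,
            bc := bc_step F _ A φ hX hq S.bc, gen1 := ?_, nc := ?_ },
    QuotientGroup.mk' F.K, ⟨?_, ?_⟩, fun _ => rfl, ?_, ?_, ?_⟩
  · intro g
    simp only [MonoidHom.comp_apply, hsq, S.sq]
  · intro i
    rw [MonoidHom.comp_apply, ← hq.φ_smul]
    have := S.gen1 i
    exact hq.scale 0 _ _ (by omega)
  · intro hc
    apply S.nc
    set x := S.b (FreeGroup.of 0) with hx
    set y := S.b (FreeGroup.of 1) with hy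
    have hk : x * y * x⁻¹ * y⁻¹ = 1 := by
      refine surv F _ A φ hq _ S.pt ?_ ?_
      · have := hc.eq
        simp only [MonoidHom.comp_apply, ← hx, ← hy] at this
        rw [map_mul, map_mul, map_mul, this, map_inv, map_inv]
        group
      · have d0 : S.X.d S.pt (x • S.pt) ≤ 1 := S.gen1 0
        have d1 : S.X.d S.pt (y • S.pt) ≤ 1 := S.gen1 1
        have step : ∀ g h : S.Q, S.X.d S.pt ((g * h) • S.pt) ≤
            S.X.d S.pt (g • S.pt) + S.X.d S.pt (h • S.pt) := by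
          intro g h
          have := S.X.tri S.pt (g • S.pt) (g • h • S.pt)
          rw [hX] at this
          rwa [mul_smul]
        have inv : ∀ g : S.Q, S.X.d S.pt (g⁻¹ • S.pt) = S.X.d S.pt (g • S.pt) := by
          intro g
          rw [← hX g, smul_inv_smul, S.X.comm]
        have s1 := step (x * y * x⁻¹) y⁻¹
        have s2 := step (x * y) x⁻¹
        have s3 := step x y
        have s4 := inv x
        have s5 := inv y
        omega
    exact commutatorElement_eq_one_iff_commute.1 hk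
  · intro g hg
    change α (S.a g) = 1
    rw [hg, map_one]
  · intro w
    change A.Z.d (φ S.pt) (QuotientGroup.mk' F.K (S.b w) • φ S.pt) ≤ 1 ∨
      A.Z.d (φ S.pt) (QuotientGroup.mk' F.K (S.b w) • φ S.pt) < S.X.d S.pt (S.b w • S.pt)
    rw [← hq.φ_smul]
    by_cases hd : S.X.d S.pt (S.b w • S.pt) ≤ L
    · left
      exact hq.scale 0 _ _ (by omega)
    · right
      have h1 : S.X.d S.pt (S.b w • S.pt) ≤ (S.X.d S.pt (S.b w • S.pt) - 2 + 1) * L := by
        have h2 : 2 * (S.X.d S.pt (S.b w • S.pt) - 2 + 1) ≤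
            (S.X.d S.pt (S.b w • S.pt) - 2 + 1) * L := by
          rw [mul_comm]
          exact Nat.mul_le_mul_left _ (by omega)
        omega
      have := hq.scale _ _ _ h1
      omega
  · intro i
    rw [← map_pow]
    exact hq.rel i
  · intro a m hm ha
    exact ai_step hX hqP m n hn.pos hm _ ha
  · intro m i hm hm1 hmu' hi
    obtain ⟨e, he⟩ := ai_base hX hqP m hm hm1 _ S.pt (S.gen1 0) i hi hmu'
    exact ⟨e, by rw [← map_pow] at he; exact he⟩

/-- The standard lower bound for translation lengths. -/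
noncomputable abbrev τ₀ : ℝ := 1 / (3 * 10 ^ 13)

theorem tau0_le : τ₀ ≤ 1 / (15000 * ((2 * 10 ^ 9 : ℕ) : ℝ)) := by
  norm_num

theorem power_step (hn : Odd n) (hτ : 0 < τ) (S : Pre n τ) (m : ℕ) (hm : m ∣ n)
    (hm2 : (2 * 10 ^ 18 : ℝ) ≤ m * τ) (a : Fr) (ha : AI S.X (S.b a) m n) :
    ∃ (T : Pre n τ₀) (π : S.Q →* T.Q), Nx S T ∧ (∀ w, T.b w = π (S.b w)) ∧
      AI T.X (T.b a) m n ∧ ∀ w, S.len w ≤ 1 → T.b w ^ n = 1 := by
  obtain ⟨I, _, F, hmu, htri⟩ := lines_var n S.Q S.V S.X τ hτ S.good (fun _ => m)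
    (fun _ _ => rfl) (fun _ => hm2)
  obtain ⟨T, π, h1, h2, h3, h4, -⟩ := pre_step hn S F 1 (fun i => by rw [hmu]; exact hm)
    (by norm_num) one_pos le_rfl (fun g => (htri g).imp id (Or.imp id le_of_lt)) tau0_le
  refine ⟨T, π, h1, h2, h4 a m (fun i => by rw [hmu]) ha, fun w hw => ?_⟩
  rw [h2]
  rcases htri (S.b w) with h | ⟨i, h⟩ | h
  · rw [← map_pow, h, map_one]
  · obtain ⟨k, hk⟩ := Subgroup.mem_zpowers_iff.1 h
    obtain ⟨t, rfl⟩ := hm
    have := h3 i
    rw [hmu] at this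
    rw [← hk, map_zpow, ← zpow_natCast, ← zpow_mul, mul_comm k, zpow_mul, zpow_natCast, pow_mul,
      this, one_pow, one_zpow]
  · have h5 := S.tau_le w
    have h6 : (S.len w : ℝ) ≤ 1 := by exact_mod_cast hw
    linarith

theorem long_step : ∃ τ₁ : ℝ, 0 < τ₁ ∧ τ₁ ≤ τ₀ ∧ ∀ (n : ℕ), Odd n → ∀ (S : Pre n τ₀) (m : ℕ)
    (a u v : Fr), AI S.X (S.b a) m n → S.len a ≤ 1 → S.len u ≤ 1 → S.len v ≤ 1 →
    ¬ Commute (S.b u) (S.b v) →
    ∃ (T : Pre n τ₁) (π : S.Q →* T.Q), Nx S T ∧ (∀ w, T.b w = π (S.b w)) ∧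
      AI T.X (T.b a) m n ∧ T.b a ∈ Subgroup.closure {T.b u, T.b v} := by
  obtain ⟨Λ, hΛ⟩ := thm_word thm_w1 thm_w2 thm_w3 (thm_w5 thm_w3) 122 (10 ^ 9 + 40 * 122) 1
    (2 * 10 ^ 9)
  have h0 : (0 : ℝ) < τ₀ := by norm_num
  refine ⟨τ₀ / (15000 * ((Λ + 5000 * 122 : ℕ) : ℝ)), by positivity, ?_, ?_⟩
  · apply div_le_self h0.le
    push_cast
    nlinarith [Nat.cast_nonneg (α := ℝ) Λ]
  intro n hn S m a u v ha la lu lv hc
  have hg := S.good
  obtain ⟨w, hw, Δ, d1, d2, d3, d4⟩ := hΛ S.Q S.V S.X (S.b u) (S.b v) (S.b a)⁻¹ S.pt hg.inv hg.four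
    (by norm_num)
    (fun D => by
      have := s_acyl S.Q S.V S.X 122 (10 ^ 9) hg.inv hg.four hg.cyc hg.mal hg.acyl D
      rwa [show 10 ^ 9 + 20 * D + 40 * 122 = 10 ^ 9 + 40 * 122 + 20 * D by ring] at this)
    (fun g hg0 => by
      have hg1 : g ≠ 1 := by
        rintro rfl
        have := (thm_tau S.Q S.V S.X hg.inv).2.2.2.1 1 0
        simp at this
        linarith
      exact ⟨hg.cyc g hg1, fun t => hg.mal g t hg1⟩)
    hc (fun hb => hc (S.bc _ hb _ (Subgroup.subset_closure (by simp)) _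
      (Subgroup.subset_closure (by simp)))) lu lv
    (by rw [← hg.inv (S.b a), smul_inv_smul, S.X.comm]; exact la)
  obtain ⟨I, _, F, hF, i, hi⟩ := thm_long S.Q S.V S.X 122 (Δ + 5000 * 122) Δ _ hg.inv hg.four
    (by norm_num) le_rfl (by
      have : ((10 ^ 9 + 40 * 122 + 1 + 2000 * 122 : ℕ) : ℝ) ≤ Δ := by exact_mod_cast d2
      push_cast at this d3 ⊢
      linarith) d4
  obtain ⟨T, π, h1, h2, h3, h4, -⟩ := pre_step
    (τ' := τ₀ / (15000 * ((Λ + 5000 * 122 : ℕ) : ℝ))) hn S F τ₀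
    (fun i => by rw [(hF i).1]; exact one_dvd _) (by omega) h0 (by norm_num)
    (fun g => (hg.dich g).imp id Or.inr) (by
      apply div_le_div_of_nonneg_left h0.le (by positivity)
      have : ((Δ + 5000 * 122 : ℕ) : ℝ) ≤ ((Λ + 5000 * 122 : ℕ) : ℝ) := by
        exact_mod_cast Nat.add_le_add_right d1 _
      linarith)
  refine ⟨T, π, h1, h2, h4 a m (fun i => by rw [(hF i).1]; exact one_dvd _) ha, ?_⟩
  have h5 := h3 i
  rw [(hF i).1, pow_one, hi, map_mul, map_inv, inv_mul_eq_one] at h5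
  rw [h2, h2, h2, h5]
  have := Subgroup.mem_map_of_mem π hw
  rwa [MonoidHom.map_closure, Set.image_pair] at this

theorem first_step (m : ℕ) (hm : Odd m) (hm2 : (2 * 10 ^ 18 : ℝ) ≤ m * τ₀) :
    ∃ (T : Pre (m * m) τ₀) (a : Fr), AI T.X (T.b a) m (m * m) := by
  classical
  have hn : Odd (m * m) := hm.mul hm
  have hm1 : 1 < m := by
    have : (1 : ℝ) < m := by
      unfold τ₀ at hm2
      linarith
    exact_mod_cast this
  have hsq : ∀ t : Fr, t ^ 2 = 1 → t = 1 := fun t ht => (pow_eq_one_iff_left two_ne_zero).1 ht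
  have hlox := fun (u : Fr) (hu : u ≠ 1) =>
    s_lox _ _ Tbase.tree 0 1 Tbase.tree_inv Tbase.tree_four one_pos hsq u hu
      (Tbase.comm_of_comm thm_comm u hu) (fun a _ ha => Tbase.one_le_tau thm_tau a ha)
  have hgood : Good Fr Fr Tbase.tree 122 (10 ^ 9) τ₀ (m * m) := by
    refine ⟨⟨1⟩, Tbase.tree_inv, ?_, ?_, fun u hu => (hlox u hu).1, fun u t hu => (hlox u hu).2 t,
      ?_⟩
    · intro x y z w
      have := Tbase.tree_four x y z w
      omega
    · intro g
      by_cases hg : g = 1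
      · left; rw [hg, one_pow]
      · right; exact le_trans (by norm_num) (Tbase.one_le_tau thm_tau g hg)
    · intro g h x y a1 a2 a3 a4 a5
      exact Tbase.acyl thm_comm (12 * 122) g h x y a1 a2 a3 a4 (le_trans (by norm_num) a5)
  have hd : ∀ i, Tbase.tree.d 1 ((FreeGroup.of i : Fr) • (1 : Fr)) ≤ 1 := by
    intro i
    simp [Tbase.tree_d]
  let S : Pre (m * m) τ₀ :=
    { G := Gam, Q := Fr, V := Fr, X := Tbase.tree, ρ := MonoidHom.fst _ _, a := MonoidHom.id _,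
      b := MonoidHom.id _, pt := 1, good := hgood
      ce := by
        refine ⟨fun w => ⟨(w, 1), rfl⟩, ?_, c0_comm, ?_, ?_⟩
        · rintro ⟨w, z⟩
          simp only [MonoidHom.coe_fst, MonoidHom.id_apply, Subgroup.mem_zpowers_iff, c0_zpow]
          constructor
          · rintro rfl
            exact ⟨Multiplicative.toAdd z, rfl⟩
          · rintro ⟨j, hj⟩
            exact (congrArg Prod.fst hj).symm
        · intro h
          have h' : (Multiplicative.ofAdd (1 : ℤ)) = 1 := congrArg Prod.snd h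
          have : (1 : ℤ) = 0 := congrArg Multiplicative.toAdd h'
          exact one_ne_zero this
        · intro g m hm hg
          exact (pow_eq_one_iff_left hm.ne').1 hg
      a_surj := fun g => ⟨g, rfl⟩, sq := fun _ => rfl
      bc := by
        rintro H ⟨p, r, hr⟩ u hu v _
        have : u = 1 := by
          by_contra h1
          have h2 := Tbase.one_le_tau thm_tau u h1
          have h3 := (thm_tau Fr Fr Tbase.tree Tbase.tree_inv).1 u p (r + 1)
          have h4 : (Tbase.tree.d p (u ^ (r + 1) • p) : ℝ) ≤ r := by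
            exact_mod_cast hr _ (H.pow_mem hu _)
          push_cast at h3
          nlinarith [Nat.cast_nonneg (α := ℝ) r]
        rw [this]
        exact Commute.one_left v
      gen1 := hd
      nc := by
        intro h
        have h1 := congrArg FreeGroup.toWord h.eq
        simp only [MonoidHom.id_apply] at h1
        revert h1
        decide }
  let x : Fr := FreeGroup.of 0
  let mf : Fr → ℕ := fun g => if IsConj g x ∨ IsConj g x⁻¹ then m * m else m
  have hmm : (m : ℝ) ≤ (m * m : ℕ) := by exact_mod_cast Nat.le_mul_self m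
  obtain ⟨I, _, F, hmu, htri⟩ := lines_var (m * m) Fr Fr Tbase.tree τ₀ (by norm_num) hgood mf
    (fun g s => by
      have h1 : IsConj g (s * g * s⁻¹) := isConj_iff.2 ⟨s, rfl⟩
      have h2 : ∀ y, IsConj (s * g * s⁻¹) y ↔ IsConj g y :=
        fun y => ⟨h1.trans, h1.symm.trans⟩
      simp only [mf, h2])
    (fun g => by
      simp only [mf]
      split_ifs
      · exact hm2.trans (mul_le_mul_of_nonneg_right hmm (by norm_num))
      · exact hm2)
  obtain ⟨T, π, -, -, -, -, h5⟩ := pre_step hn S F 1 (fun i => by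
      rw [hmu]
      simp only [mf]
      split_ifs
      · exact dvd_rfl
      · exact dvd_mul_right m m)
    (by norm_num) one_pos le_rfl (fun g => (htri g).imp id (Or.imp id le_of_lt)) tau0_le
  have hx1 : x ≠ 1 := FreeGroup.of_ne_one 0
  have htx : Tbase.tree.tau x ≤ 1 := by
    have h1 := S.tau_le x
    have h2 : (S.len x : ℝ) ≤ 1 := by exact_mod_cast hd 0
    exact h1.trans h2
  rcases htri x with h | ⟨i, h⟩ | h
  · exact absurd ((pow_eq_one_iff_left hn.pos.ne').1 h) hx1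
  · obtain ⟨k, hk⟩ := Subgroup.mem_zpowers_iff.1 h
    have hg1 : F.gen i ≠ 1 := by
      intro h0
      exact hx1 (by rw [← hk, h0, one_zpow])
    have h1 := (thm_tau Fr Fr Tbase.tree Tbase.tree_inv).2.2.2.1 (F.gen i) k
    have h2 := Tbase.one_le_tau thm_tau _ hg1
    rw [hk] at h1
    have h3 : |(k : ℝ)| ≤ 1 := by nlinarith [abs_nonneg (k : ℝ)]
    have h4 : |k| ≤ 1 := by exact_mod_cast h3
    have hk0 : k ≠ 0 := by rintro rfl; exact hx1 (by rw [← hk, zpow_zero])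
    have hi : x = F.gen i ∨ x = (F.gen i)⁻¹ := by
      rw [abs_le] at h4
      obtain rfl | rfl : k = 1 ∨ k = -1 := by omega
      · left; rw [← hk, zpow_one]
      · right; rw [← hk, zpow_neg_one]
    obtain ⟨e, he⟩ := h5 m i hm hm1 (by
      rw [hmu]
      refine if_pos ?_
      rcases hi with h | h
      · left; rw [← h]
      · right; rw [h, inv_inv]) hi
    exact ⟨T, _, he⟩
  · linarith

end Pool.Agent.H233Z.HM
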